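import Mathlib

/-!
# Dimension counting and the determinant of a matrix with few occurrences of the variables
-/

set_option autoImplicit false

namespace Pool.Agent.L5helper59.Per

open Filter Topology MvPolynomial

/-- dimension counting -/
theorem dim_bound {T Y κ Y₀ : Type} [Fintype T] [Fintype Y] [Fintype κ] [Fintype Y₀]
    (g : (T → ℂ) →ₗ[ℂ] (Y → ℂ)) (hg : Function.Injective g) (Ψ : Y₀ → Y → MvPolynomial κ ℂ)
    (H : ∀ z, z ≠ 0 → ∃ x₀, ∃ w : ℕ → κ → ℂ, ∀ x,
      Tendsto (fun k => eval (w k) (Ψ x₀ x)) atTop (𝓝 (g z x))) :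
    Fintype.card T ≤ Fintype.card κ := by
  classical
  by_contra hlt
  rw [not_le] at hlt
  obtain ⟨L, hL⟩ := LinearMap.exists_leftInverse_of_injective g (LinearMap.ker_eq_bot.2 hg)
  have hLg : ∀ z, L (g z) = z := fun z => by
    have := congrArg (fun f => f z) hL
    exact this
  have hLsum : ∀ (y : Y → ℂ) (t : T), L y t = ∑ x, L (Pi.single x 1) t * y x := by
    intro y t
    have h1 : y = ∑ x, y x • (Pi.single x (1 : ℂ) : Y → ℂ) := by
      ext x'
      simp [Finset.sum_apply, Pi.single_apply]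
    conv_lhs => rw [h1]
    rw [map_sum, Finset.sum_apply]
    refine Finset.sum_congr rfl fun x _ => ?_
    rw [map_smul, Pi.smul_apply, smul_eq_mul, mul_comm]
  let h : Y₀ → T → MvPolynomial κ ℂ := fun x₀ t => ∑ x, C (L (Pi.single x 1) t) * Ψ x₀ x
  have hdep : ∀ x₀, ∃ P : MvPolynomial T ℂ, P ≠ 0 ∧ aeval (h x₀) P = 0 := by
    intro x₀
    by_contra hcon
    push Not at hcon
    have hind : AlgebraicIndependent ℂ (h x₀) := by
      rw [algebraicIndependent_iff]
      intro p hp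
      by_contra hp0
      exact hcon p hp0 hp
    have h1 := hind.cardinalMk_le_trdeg
    rw [MvPolynomial.trdeg_of_isDomain, Cardinal.mk_fintype, Cardinal.mk_fintype,
      Cardinal.lift_natCast, Nat.cast_le] at h1
    omega
  choose P hP0 hP using hdep
  have hT : Nonempty T := by
    rw [← Fintype.card_pos_iff]; omega
  obtain ⟨t₀⟩ := hT
  set Q : MvPolynomial T ℂ := (∏ x₀, P x₀) * X t₀ with hQ
  have hQ0 : Q ≠ 0 := mul_ne_zero (Finset.prod_ne_zero_iff.2 fun x₀ _ => hP0 x₀) (X_ne_zero t₀)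
  obtain ⟨z, hz⟩ : ∃ z, eval z Q ≠ 0 := by
    by_contra hcon
    push Not at hcon
    exact hQ0 (MvPolynomial.funext fun z => by rw [hcon z, map_zero])
  rw [hQ, map_mul, map_prod, eval_X] at hz
  have hz0 : z ≠ 0 := by
    rintro rfl
    exact hz (by simp)
  obtain ⟨x₀, w, hw⟩ := H z hz0
  have h1 : eval z (P x₀) ≠ 0 :=
    Finset.prod_ne_zero_iff.1 (left_ne_zero_of_mul hz) x₀ (Finset.mem_univ _)
  apply h1
  have h2 : Tendsto (fun k => fun t => eval (w k) (h x₀ t)) atTop (𝓝 z) := by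
    rw [tendsto_pi_nhds]
    intro t
    have h3 : z t = ∑ x, L (Pi.single x 1) t * g z x := by
      rw [← hLsum, hLg]
    rw [h3]
    have h4 : ∀ k, eval (w k) (h x₀ t) =
        ∑ x, L (Pi.single x 1) t * eval (w k) (Ψ x₀ x) := by
      intro k
      simp only [h, map_sum, map_mul, eval_C]
    simp only [h4]
    exact tendsto_finsetSum _ fun x _ => (hw x).const_mul _
  have h3 : ∀ k, eval (fun t => eval (w k) (h x₀ t)) (P x₀) = 0 := by
    intro k
    have h4 : eval (w k) (aeval (h x₀) (P x₀)) = 0 := by rw [hP, map_zero]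
    rw [aeval_def, eval₂_eq', map_sum] at h4
    rw [eval_eq']
    rw [← h4]
    refine Finset.sum_congr rfl fun d _ => ?_
    rw [map_mul, map_prod]
    simp
  have h5 : Tendsto (fun k => eval (fun t => eval (w k) (h x₀ t)) (P x₀)) atTop
      (𝓝 (eval z (P x₀))) :=
    ((MvPolynomial.continuous_eval (P x₀)).tendsto z).comp h2
  simp only [h3] at h5
  exact (tendsto_nhds_unique h5 tendsto_const_nhds)

/-- rank factorization -/
theorem rank_fac {n r : ℕ} (C : Matrix (Fin n) (Fin n) ℂ) (h : C.rank ≤ r) :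
    ∃ (U : Matrix (Fin n) (Fin r) ℂ) (V : Matrix (Fin r) (Fin n) ℂ), C = U * V := by
  classical
  let S := LinearMap.range C.mulVecLin
  have hd : Module.finrank ℂ S ≤ Module.finrank ℂ (Fin r → ℂ) := by
    rw [Module.finrank_fin_fun]; exact h
  obtain ⟨f, hf⟩ : ∃ f : S →ₗ[ℂ] (Fin r → ℂ), Function.Injective f := by
    refine Module.Free.exists_linearMap_injective_of_linearIndependent_of_rank_le
      (Pi.basisFun ℂ (Fin r)).linearIndependent ?_
    rw [← Module.finrank_eq_rank, Cardinal.mk_fin]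
    exact_mod_cast h
  obtain ⟨g, hg⟩ := LinearMap.exists_leftInverse_of_injective f (LinearMap.ker_eq_bot.2 hf)
  let a : (Fin r → ℂ) →ₗ[ℂ] (Fin n → ℂ) := S.subtype ∘ₗ g
  let b : (Fin n → ℂ) →ₗ[ℂ] (Fin r → ℂ) := f ∘ₗ (C.mulVecLin.rangeRestrict)
  refine ⟨LinearMap.toMatrix' a, LinearMap.toMatrix' b, ?_⟩
  rw [← LinearMap.toMatrix'_comp]
  have hab : a ∘ₗ b = C.mulVecLin := by
    ext1
    ext1
    simp only [a, b, LinearMap.comp_apply]
    have := congrArg (fun F => F (C.mulVecLin.rangeRestrict (LinearMap.single ℂ (fun _ => ℂ) ‹_› 1))) hg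
    simp only [LinearMap.comp_apply, LinearMap.id_apply] at this
    rw [this]
    rfl
  rw [hab, ← Matrix.toLin'_apply', LinearMap.toMatrix'_toLin']

/-- compression of a determinant -/
theorem compress {E : Type} [Fintype E] [DecidableEq E] {n : ℕ} (r : E → ℕ)
    (B : Matrix (Fin n) (Fin n) ℂ) (C : E → Matrix (Fin n) (Fin n) ℂ)
    (hr : ∀ e, (C e).rank ≤ r e) (x₀ : E → ℂ) (h0 : (B + ∑ e, x₀ e • C e).det ≠ 0) :
    ∃ W : Matrix (Σ e, Fin (r e)) (Σ e, Fin (r e)) ℂ, ∀ x : E → ℂ,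
      (B + ∑ e, x e • C e).det = (B + ∑ e, x₀ e • C e).det *
        (1 + Matrix.diagonal (fun s : Σ e, Fin (r e) => x s.1 - x₀ s.1) * W).det := by
  classical
  choose U V hUV using fun e => rank_fac (C e) (hr e)
  set D := B + ∑ e, x₀ e • C e with hD
  let UU : Matrix (Fin n) (Σ e, Fin (r e)) ℂ := fun i s => U s.1 i s.2
  let VV : Matrix (Σ e, Fin (r e)) (Fin n) ℂ := fun s j => V s.1 s.2 j
  have hu : IsUnit D.det := isUnit_iff_ne_zero.2 h0
  refine ⟨VV * (D⁻¹ * UU), fun x => ?_⟩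
  have h1 : B + ∑ e, x e • C e =
      D * (1 + (D⁻¹ * UU) * (Matrix.diagonal (fun s : Σ e, Fin (r e) => x s.1 - x₀ s.1) * VV)) := by
    rw [Matrix.mul_add, Matrix.mul_one, Matrix.mul_assoc, ← Matrix.mul_assoc D,
      Matrix.mul_nonsing_inv _ hu, Matrix.one_mul]
    have h2 : UU * (Matrix.diagonal (fun s : Σ e, Fin (r e) => x s.1 - x₀ s.1) * VV) =
        ∑ e, (x e - x₀ e) • C e := by
      ext i j
      rw [Matrix.mul_apply, Matrix.sum_apply, Fintype.sum_sigma]
      refine Finset.sum_congr rfl fun e _ => ?_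
      rw [Matrix.smul_apply, hUV e, Matrix.mul_apply, smul_eq_mul, Finset.mul_sum]
      refine Finset.sum_congr rfl fun s _ => ?_
      rw [Matrix.diagonal_mul]
      simp only [UU, VV]
      ring
    rw [h2, hD, add_assoc, ← Finset.sum_add_distrib]
    congr 1
    refine Finset.sum_congr rfl fun e _ => ?_
    rw [← add_smul]
    congr 1
    ring
  rw [h1, Matrix.det_mul, Matrix.det_one_add_mul_comm, Matrix.mul_assoc]

end Pool.Agent.L5helper59.Per
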