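import Pool.Agent.L5helper59.Per.Eval

/-!
# The matrices
-/

set_option autoImplicit false
set_option linter.unusedSectionVars false

namespace Pool.Agent.L5helper59.Per

open Finset

section general

variable {ρ : Type*} [DecidableEq ρ] {R : Type*} [CommRing R]

theorem pl_swap (c c' : ρ → R) (L : List (ρ → R)) (T : Finset ρ) :
    pl (c :: c' :: L) T = pl (c' :: c :: L) T := by
  have key : ∀ c c' : ρ → R, pl (c :: c' :: L) T =
      ∑ i ∈ T, ∑ i' ∈ T.erase i, c i * (c' i' * pl L ((T.erase i).erase i')) := by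
    intro c c'
    rw [pl_cons]
    refine Finset.sum_congr rfl fun i _ => ?_
    rw [pl_cons, Finset.mul_sum]
  rw [key c c', key c' c, Finset.sum_comm' (t' := T) (s' := fun u' => T.erase u')]
  · refine Finset.sum_congr rfl fun u _ => Finset.sum_congr rfl fun u' _ => ?_
    rw [Finset.erase_right_comm]; ring
  · intro x y
    simp only [Finset.mem_erase]
    constructor
    · rintro ⟨h1, h2, h3⟩; exact ⟨⟨Ne.symm h2, h1⟩, h3⟩
    · rintro ⟨⟨h1, h2⟩, h3⟩; exact ⟨h2, Ne.symm h1, h3⟩

/-- the order of the columns does not matter -/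
theorem pl_perm {L L' : List (ρ → R)} (h : L.Perm L') (T : Finset ρ) : pl L T = pl L' T := by
  induction h generalizing T with
  | nil => rfl
  | cons c _ ih =>
    rw [pl_cons, pl_cons]
    exact Finset.sum_congr rfl fun i _ => by rw [ih]
  | swap c c' L => exact pl_swap _ _ _ _
  | trans _ _ ih1 ih2 => rw [ih1, ih2]

/-- the permanent of the identity -/
theorem pl_id {ι : Type*} [DecidableEq ι] (f : ι → ρ) (hf : Function.Injective f)
    (c : ι → ρ → R) (hc : ∀ i j, c i (f j) = if i = j then 1 else 0) (l : List ι)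
    (hl : l.Nodup) : pl (l.map c) (l.toFinset.image f) = 1 := by
  induction l with
  | nil => simp [pl_nil]
  | cons i l ih =>
    obtain ⟨hi, hl'⟩ := List.nodup_cons.1 hl
    have hni : f i ∉ l.toFinset.image f := by
      intro h
      obtain ⟨j, hj, hji⟩ := Finset.mem_image.1 h
      exact hi (hf hji ▸ List.mem_toFinset.1 hj)
    rw [List.map_cons, pl_cons, List.toFinset_cons, Finset.image_insert, Finset.sum_eq_single (f i)]
    · rw [hc, if_pos rfl, Finset.erase_insert hni, ih hl', one_mul]
    · intro k hk hne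
      obtain ⟨j, _, rfl⟩ : ∃ j ∈ insert i l.toFinset, f j = k := by
        rw [← Finset.image_insert] at hk
        exact Finset.mem_image.1 hk
      rw [hc, if_neg, zero_mul]
      rintro rfl
      exact hne rfl
    · intro h
      exact absurd (Finset.mem_insert_self _ _) h

end general

variable {V : Type} [DecidableEq V] [Fintype V] {q : ℕ}

/-- the rows and the columns -/
abbrev Idx (V : Type) (q : ℕ) : Type := (V ⊕ V) ⊕ ((Finset V ⊕ Finset V) ⊕ (Unit ⊕ Fin q))

/-- the entries: column, row -/
noncomputable def entry (z : Finset V → Finset V → ℂ) (x : V ⊕ V → ℂ) : Idx V q → Idx V q → ℂ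
  | Sum.inl (Sum.inl u), Sum.inl (Sum.inl u') => if u = u' then x (Sum.inl u) else 0
  | Sum.inl (Sum.inl _), Sum.inr (Sum.inl (Sum.inl _)) => 1
  | Sum.inl (Sum.inl _), Sum.inr (Sum.inr (Sum.inl _)) => 1
  | Sum.inl (Sum.inr u), Sum.inl (Sum.inr u') => if u = u' then x (Sum.inr u) else 0
  | Sum.inl (Sum.inr _), Sum.inr (Sum.inl (Sum.inr _)) => 1
  | Sum.inr (Sum.inl (Sum.inl h)), Sum.inl (Sum.inl u) => bb h u
  | Sum.inr (Sum.inl (Sum.inl h)), Sum.inr (Sum.inl (Sum.inl h')) => if h = h' then 1 else 0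
  | Sum.inr (Sum.inl (Sum.inr h)), Sum.inl (Sum.inr u) => bb h u
  | Sum.inr (Sum.inl (Sum.inr h)), Sum.inr (Sum.inl (Sum.inl i)) => z i h
  | Sum.inr (Sum.inl (Sum.inr h)), Sum.inr (Sum.inl (Sum.inr h')) => if h = h' then 1 else 0
  | Sum.inr (Sum.inr (Sum.inl _)), Sum.inr (Sum.inl (Sum.inr _)) => 1
  | Sum.inr (Sum.inr (Sum.inr i)), Sum.inr (Sum.inr (Sum.inr i')) => if i = i' then 1 else 0
  | _, _ => 0

variable (z : Finset V → Finset V → ℂ) (x : V ⊕ V → ℂ)

/-- the rows of side one -/
abbrev v1 (q : ℕ) (u : V) : Idx V q := Sum.inl (Sum.inl u)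
abbrev k1 (q : ℕ) (h : Finset V) : Idx V q := Sum.inr (Sum.inl (Sum.inl h))
abbrev v2 (q : ℕ) (u : V) : Idx V q := Sum.inl (Sum.inr u)
abbrev k2 (q : ℕ) (h : Finset V) : Idx V q := Sum.inr (Sum.inl (Sum.inr h))
abbrev r1 (V : Type) (q : ℕ) : Idx V q := Sum.inr (Sum.inr (Sum.inl ()))
abbrev pd (V : Type) (q : ℕ) (i : Fin q) : Idx V q := Sum.inr (Sum.inr (Sum.inr i))

theorem setup1 : Setup (v1 (V := V) q) (k1 q) (fun κ => (∃ h, κ = k1 q h) ∨ κ = r1 V q)
    (fun u => entry z x (v1 q u)) (fun u => x (Sum.inl u)) (fun h => entry z x (k1 q h)) bb where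
  vinj := fun _ _ h => by simpa using h
  kinj := fun _ _ h => by simpa using h
  v_not := by
    rintro u (⟨h, h1⟩ | h1) <;> simp at h1
  k_type := fun h => Or.inl ⟨h, rfl⟩
  cV_v := fun u u' => rfl
  cV_k := by
    rintro u κ (⟨h, rfl⟩ | rfl) <;> rfl
  cH_v := fun h u => rfl
  cH_k := fun h => by simp [entry]
  cH_ne := by
    rintro h κ (⟨h', rfl⟩ | rfl) hne
    · have : h ≠ h' := by
        rintro rfl
        exact hne rfl
      simp [entry, this]
    · rfl

theorem setup2 : Setup (v2 (V := V) q) (k2 q) (fun κ => ∃ h, κ = k2 q h)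
    (fun u => entry z x (v2 q u)) (fun u => x (Sum.inr u)) (fun h => entry z x (k2 q h)) bb where
  vinj := fun _ _ h => by simpa using h
  kinj := fun _ _ h => by simpa using h
  v_not := by
    rintro u ⟨h, h1⟩
    simp at h1
  k_type := fun h => ⟨h, rfl⟩
  cV_v := fun u u' => rfl
  cV_k := by
    rintro u κ ⟨h, rfl⟩
    rfl
  cH_v := fun h u => rfl
  cH_k := fun h => by simp [entry]
  cH_ne := by
    rintro h κ ⟨h', rfl⟩ hne
    have : h ≠ h' := by
      rintro rfl
      exact hne rfl
    simp [entry, this]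

/-- the list of the elements -/
noncomputable def vl (V : Type) [Fintype V] : List V := (Finset.univ : Finset V).toList

theorem vl_nodup : (vl V).Nodup := Finset.nodup_toList _

theorem mem_vl (u : V) : u ∈ vl V := by
  rw [vl, Finset.mem_toList]; exact Finset.mem_univ u

theorem vl_length : (vl V).length = Fintype.card V := by
  rw [vl, Finset.length_toList, Finset.card_univ]

/-- the columns of side one -/
noncomputable def L1 : List (Idx V q → ℂ) :=
  (all V).map (fun h => entry z x (k1 q h)) ++ (vl V).map (fun u => entry z x (v1 q u))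

/-- the columns of side two -/
noncomputable def L2 : List (Idx V q → ℂ) :=
  (all V).map (fun h => entry z x (k2 q h)) ++
    (entry z x (r1 V q) :: (vl V).map (fun u => entry z x (v2 q u)))

/-- the rows of side one -/
def A1 (V : Type) [DecidableEq V] [Fintype V] (q : ℕ) : Finset (Idx V q) :=
  (Finset.univ : Finset V).image (v1 q) ∪ ({r1 V q} ∪ (Finset.univ : Finset (Finset V)).image (k1 q))

/-- the rows of side two -/
def A2 (V : Type) [DecidableEq V] [Fintype V] (q : ℕ) : Finset (Idx V q) :=
  (Finset.univ : Finset V).image (v2 q) ∪ (∅ ∪ (Finset.univ : Finset (Finset V)).image (k2 q))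

/-- the first factor -/
noncomputable def F1 (j : Finset V) (x : V → ℂ) : ℂ :=
  ∑ W ∈ (Finset.univ : Finset V).powerset, Em bb j (all V) W *
    ((W.card.factorial : ℂ) * ∏ u ∈ Finset.univ \ W, x u)

/-- the second factor -/
noncomputable def F2 (t : Finset V → ℂ) (x : V → ℂ) : ℂ :=
  ∑ W ∈ (Finset.univ : Finset V).powerset, Ed bb t (all V) W *
    (((1 + W.card).factorial : ℂ) * ∏ u ∈ Finset.univ \ W, x u)

theorem rest1 : Rest (v1 (V := V) q) (fun κ => (∃ h, κ = k1 q h) ∨ κ = r1 V q)
    ((vl V).map (fun u => entry z x (v1 q u)))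
    (fun U c => (c.factorial : ℂ) * ∏ u ∈ U, x (Sum.inl u)) := by
  intro U K hK hc
  rw [List.length_map] at hc
  exact (setup1 z x).lemV (vl V) vl_nodup U K (fun u _ => mem_vl u) hK hc

theorem rest2 : Rest (v2 (V := V) q) (fun κ => ∃ h, κ = k2 q h)
    (entry z x (r1 V q) :: (vl V).map (fun u => entry z x (v2 q u)))
    (fun U c => (c.factorial : ℂ) * ∏ u ∈ U, x (Sum.inr u)) := by
  intro U K hK hc
  have hS := setup2 (q := q) z x
  rw [List.length_cons, List.length_map, vl_length] at hc
  have hU : U.card ≤ Fintype.card V := Finset.card_le_univ U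
  rw [pl_cons, Finset.sum_union (hS.disj U K hK),
      Finset.sum_image (fun _ _ _ _ h => hS.vinj h)]
  have h1 : ∑ u ∈ U, entry z x (r1 V q) (v2 q u) * pl ((vl V).map (fun u => entry z x (v2 q u)))
      ((U.image (v2 q) ∪ K).erase (v2 q u)) = 0 := by
    refine Finset.sum_eq_zero fun u _ => ?_
    have : entry z x (r1 V q) (v2 q u) = 0 := rfl
    rw [this, zero_mul]
  have h2 : ∀ κ ∈ K, entry z x (r1 V q) κ * pl ((vl V).map (fun u => entry z x (v2 q u)))
      ((U.image (v2 q) ∪ K).erase κ) = ((K.card - 1).factorial : ℂ) * ∏ u ∈ U, x (Sum.inr u) := by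
    intro κ hκ
    obtain ⟨h, rfl⟩ := hK κ hκ
    have e : entry z x (r1 V q) (k2 q h) = 1 := rfl
    rw [e, one_mul, hS.erase_k U K ⟨h, rfl⟩, hS.lemV (vl V) vl_nodup U _ (fun u _ => mem_vl u)
      (fun κ' hκ' => hK κ' (Finset.mem_of_mem_erase hκ')), Finset.card_erase_of_mem hκ]
    rw [Finset.card_erase_of_mem hκ, vl_length]
    have := Finset.card_pos.2 ⟨_, hκ⟩
    omega
  rw [h1, zero_add, Finset.sum_congr rfl h2, Finset.sum_const, nsmul_eq_mul]
  obtain ⟨c, hc'⟩ : ∃ c, K.card = c + 1 := ⟨K.card - 1, by omega⟩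
  show _ = (K.card.factorial : ℂ) * ∏ u ∈ U, x (Sum.inr u)
  rw [hc', Nat.add_sub_cancel, Nat.factorial_succ]
  push_cast
  ring

theorem val1 (j : Finset V) : pl (L1 (q := q) z x) ((A1 V q).erase (k1 q j)) =
    F1 j (fun u => x (Sum.inl u)) := by
  have hS := setup1 (q := q) z x
  have e : (A1 V q).erase (k1 q j) = (Finset.univ : Finset V).image (v1 q) ∪
      ({r1 V q} ∪ ((all V).toFinset.erase j).image (k1 q)) := by
    rw [A1, all_toFinset]
    ext i
    simp only [Finset.mem_erase, Finset.mem_union, Finset.mem_image, Finset.mem_singleton,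
      Finset.mem_univ, true_and, and_true]
    constructor
    · rintro ⟨h1, ⟨u, rfl⟩ | rfl | ⟨h, rfl⟩⟩
      · exact Or.inl ⟨u, rfl⟩
      · exact Or.inr (Or.inl rfl)
      · exact Or.inr (Or.inr ⟨h, fun h2 => h1 (by rw [h2]), rfl⟩)
    · rintro (⟨u, rfl⟩ | rfl | ⟨h, h2, rfl⟩)
      · exact ⟨by simp, Or.inl ⟨u, rfl⟩⟩
      · exact ⟨by simp, Or.inr (Or.inl rfl)⟩
      · exact ⟨by simpa using h2, Or.inr (Or.inr ⟨h, rfl⟩)⟩
  rw [e, L1, hS.lemM (rest1 z x) j (all V) all_nodup (mem_all j) Finset.univ {r1 V q} 0]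
  · rw [F1]
    refine Finset.sum_congr rfl fun W _ => ?_
    rw [zero_add]
  · intro κ hκ
    exact Or.inr (Finset.mem_singleton.1 hκ)
  · intro h _ h2
    simp at h2
  · simp
  · rw [List.length_map, vl_length, Finset.card_univ, add_zero]

theorem val2 (j : Finset V) : pl (L2 (q := q) z x) (insert (k1 q j) (A2 V q)) =
    F2 (z j) (fun u => x (Sum.inr u)) := by
  have hS := setup2 (q := q) z x
  rw [L2, A2, ← all_toFinset, hS.lemT (rest2 z x) (e := k1 q j) (t := z j)]
  · rw [F2]
    refine Finset.sum_congr rfl fun W _ => ?_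
    rw [Finset.card_empty]
  · intro u; simp
  · rintro ⟨h, h1⟩
    simp at h1
  · intro h; rfl
  · intro c hc
    rcases List.mem_cons.1 hc with rfl | hc
    · rfl
    · obtain ⟨u, _, rfl⟩ := List.mem_map.1 hc
      rfl
  · exact all_nodup
  · simp
  · simp
  · rw [List.length_cons, List.length_map, vl_length, Finset.card_univ, Finset.card_empty]

/-- the value of the permanent without the padding -/
theorem val12 : pl (L1 z x ++ L2 z x) (A1 V q ∪ A2 V q) =
    ∑ j : Finset V, F1 j (fun u => x (Sum.inl u)) * F2 (z j) (fun u => x (Sum.inr u)) := by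
  have hd : Disjoint (A1 V q) (A2 V q) := by
    rw [Finset.disjoint_left]
    intro i h1 h2
    simp only [A1, A2, Finset.mem_union, Finset.mem_image, Finset.mem_singleton,
      Finset.mem_univ, true_and, Finset.notMem_empty, false_or] at h1 h2
    rcases h1 with ⟨u, rfl⟩ | rfl | ⟨h, rfl⟩ <;> rcases h2 with ⟨u', h2⟩ | ⟨h', h2⟩ <;>
      simp at h2
  rw [pl_block_one (L1 z x) (L2 z x) (A1 V q) (A2 V q) hd]
  · have h0 : ∀ i ∈ A1 V q, (∀ j, i ≠ k1 q j) →
        pl (L1 z x) ((A1 V q).erase i) * pl (L2 z x) (insert i (A2 V q)) = 0 := by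
      intro i hi hne
      rw [pl_zero_row (L2 z x) _ i (Finset.mem_insert_self _ _), mul_zero]
      intro c hc
      rw [L2, List.mem_append, List.mem_map, List.mem_cons, List.mem_map] at hc
      simp only [A1, Finset.mem_union, Finset.mem_image, Finset.mem_singleton,
        Finset.mem_univ, true_and] at hi
      rcases hi with ⟨u, rfl⟩ | rfl | ⟨h, rfl⟩
      · rcases hc with ⟨h, _, rfl⟩ | rfl | ⟨u', _, rfl⟩ <;> rfl
      · rcases hc with ⟨h, _, rfl⟩ | rfl | ⟨u', _, rfl⟩ <;> rfl
      · exact absurd rfl (hne h)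
    rw [← Finset.sum_subset (s₁ := (Finset.univ : Finset (Finset V)).image (k1 q)),
      Finset.sum_image]
    · refine Finset.sum_congr rfl fun j _ => ?_
      rw [val1, val2]
    · intro a _ b _ h
      simpa using h
    · intro i hi
      exact Finset.mem_union_right _ (Finset.mem_union_right _ hi)
    · intro i hi hi2
      refine h0 i hi fun j hj => hi2 ?_
      rw [hj]
      exact Finset.mem_image_of_mem _ (Finset.mem_univ _)
  · have c1 : ((Finset.univ : Finset V).image (v1 q)).card = Fintype.card V := by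
      rw [Finset.card_image_of_injective _ (fun _ _ h => by simpa using h), Finset.card_univ]
    have c2 : ((Finset.univ : Finset (Finset V)).image (k1 q)).card = 2 ^ Fintype.card V := by
      rw [Finset.card_image_of_injective _ (fun _ _ h => by simpa using h), Finset.card_univ,
        Fintype.card_finset]
    rw [A1, Finset.card_union_of_disjoint, Finset.card_union_of_disjoint, c1, c2,
      Finset.card_singleton, L1, List.length_append, List.length_map, List.length_map, all_length,
      vl_length]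
    · ring
    · rw [Finset.disjoint_left]
      intro i h1 h2
      simp only [Finset.mem_image, Finset.mem_singleton, Finset.mem_univ, true_and] at h1 h2
      subst h1
      obtain ⟨h, h2⟩ := h2
      simp at h2
    · rw [Finset.disjoint_left]
      intro i h1 h2
      simp only [Finset.mem_union, Finset.mem_image, Finset.mem_singleton, Finset.mem_univ,
        true_and] at h1 h2
      obtain ⟨u, rfl⟩ := h1
      rcases h2 with h2 | ⟨h, h2⟩ <;> simp at h2
  · intro c hc i hi
    rw [L1, List.mem_append, List.mem_map, List.mem_map] at hc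
    simp only [A2, Finset.mem_union, Finset.mem_image, Finset.mem_univ, true_and,
      Finset.notMem_empty, false_or] at hi
    rcases hi with ⟨u, rfl⟩ | ⟨h, rfl⟩ <;> rcases hc with ⟨h, _, rfl⟩ | ⟨u', _, rfl⟩ <;> rfl

/-- the padding -/
noncomputable def L3 (q : ℕ) : List (Idx V q → ℂ) :=
  (vl (Fin q)).map (fun i => entry z x (pd V q i))

def A3 (V : Type) [DecidableEq V] (q : ℕ) : Finset (Idx V q) :=
  (Finset.univ : Finset (Fin q)).image (pd V q)

theorem val3 : pl (L3 z x q) (A3 V q) = 1 := by
  have h1 : (Finset.univ : Finset (Fin q)) = (vl (Fin q)).toFinset := by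
    ext i
    simp [mem_vl]
  rw [L3, A3, h1]
  exact pl_id (pd V q) (fun _ _ h => by simpa using h) _ (fun i j => rfl) _ vl_nodup

/-- the list of all columns -/
noncomputable def allL (V : Type) [DecidableEq V] [Fintype V] (q : ℕ) : List (Idx V q) :=
  (((all V).map (k1 q) ++ (vl V).map (v1 q)) ++ ((all V).map (k2 q) ++
    (r1 V q :: (vl V).map (v2 q)))) ++ (vl (Fin q)).map (pd V q)

theorem allL_nodup : (allL V q).Nodup := by
  have hk : ∀ f : Finset V → Idx V q, Function.Injective f → ((all V).map f).Nodup :=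
    fun f hf => all_nodup.map hf
  have hv : ∀ f : V → Idx V q, Function.Injective f → ((vl V).map f).Nodup :=
    fun f hf => vl_nodup.map hf
  rw [allL, List.nodup_append', List.nodup_append', List.nodup_append', List.nodup_append',
    List.nodup_cons]
  refine ⟨⟨⟨hk _ fun _ _ h => by simpa using h, hv _ fun _ _ h => by simpa using h, ?_⟩,
    ⟨hk _ fun _ _ h => by simpa using h, ⟨?_, hv _ fun _ _ h => by simpa using h⟩, ?_⟩, ?_⟩,
    vl_nodup.map fun _ _ h => by simpa using h, ?_⟩
  all_goals
    simp [List.disjoint_left]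

theorem mem_allL (i : Idx V q) : i ∈ allL V q := by
  rcases i with (u | u) | ((h | h) | (u | i)) <;> simp [allL, mem_vl, mem_all]

theorem valAll : pl ((allL V q).map (entry z x)) Finset.univ =
    ∑ j : Finset V, F1 j (fun u => x (Sum.inl u)) * F2 (z j) (fun u => x (Sum.inr u)) := by
  have e : (allL V q).map (entry z x) = (L1 z x ++ L2 z x) ++ L3 z x q := by
    simp only [allL, L1, L2, L3, List.map_append, List.map_map, List.map_cons]
    rfl
  have e2 : (Finset.univ : Finset (Idx V q)) = (A1 V q ∪ A2 V q) ∪ A3 V q := by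
    symm
    rw [Finset.eq_univ_iff_forall]
    rintro ((u | u) | ((h | h) | (u | i))) <;> simp [A1, A2, A3]
  rw [e, e2, pl_block' _ _ _ _ ?_ ?_ ?_, val3, mul_one, val12]
  · rw [Finset.disjoint_left]
    intro i h1 h2
    simp only [A3, Finset.mem_image, Finset.mem_univ, true_and] at h2
    obtain ⟨j, rfl⟩ := h2
    simp [A1, A2] at h1
  · rw [A3, Finset.card_image_of_injective _ (fun _ _ h => by simpa using h), Finset.card_univ,
      L3, List.length_map, vl_length]
  · intro c hc i hi
    rw [L3, List.mem_map] at hc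
    obtain ⟨j, _, rfl⟩ := hc
    rcases i with (u | u) | ((h | h) | (u | i))
    · rfl
    · rfl
    · rfl
    · rfl
    · rfl
    · exfalso
      simp [A1, A2] at hi

/-- the value of the permanent -/
theorem perm_val {m : ℕ} (er ec : Fin m ≃ Idx V q) :
    (Matrix.of fun i j => entry z x (ec j) (er i)).permanent =
    ∑ j : Finset V, F1 j (fun u => x (Sum.inl u)) * F2 (z j) (fun u => x (Sum.inr u)) := by
  rw [permanent_eq_pl (fun j => entry z x (ec j)) er er.injective, ← valAll (q := q) z x,
    Finset.image_univ_of_surjective er.surjective]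
  refine pl_perm ?_ _
  rw [show (fun j => entry z x (ec j)) = entry z x ∘ ec from rfl, ← List.map_ofFn]
  refine List.Perm.map _ ?_
  rw [List.perm_ext_iff_of_nodup (List.nodup_ofFn.2 ec.injective) allL_nodup]
  intro a
  simp only [List.mem_ofFn, mem_allL, iff_true]
  exact ⟨ec.symm a, by simp⟩

end Pool.Agent.L5helper59.Per
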