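import Pool.Agent.L5helper59.Per.Inj

/-!
# Evaluation of the permanents
-/

set_option autoImplicit false
set_option linter.unusedSectionVars false

namespace Pool.Agent.L5helper59.Per

open Finset

variable {V η ρ : Type*} [DecidableEq V] [DecidableEq η] [DecidableEq ρ] {R : Type*} [CommRing R]

/-- the rows `v u`, the rows `k h` and the rows of the type `Kt`, which look like the rows `k h`
for the columns `cV u` -/
structure Setup (v : V → ρ) (k : η → ρ) (Kt : ρ → Prop) (cV : V → ρ → R) (x : V → R)
    (cH : η → ρ → R) (b : η → V → R) : Prop where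
  vinj : Function.Injective v
  kinj : Function.Injective k
  v_not : ∀ u, ¬ Kt (v u)
  k_type : ∀ h, Kt (k h)
  cV_v : ∀ u u', cV u (v u') = if u = u' then x u else 0
  cV_k : ∀ u κ, Kt κ → cV u κ = 1
  cH_v : ∀ h u, cH h (v u) = b h u
  cH_k : ∀ h, cH h (k h) = 1
  cH_ne : ∀ h κ, Kt κ → κ ≠ k h → cH h κ = 0

variable {v : V → ρ} {k : η → ρ} {Kt : ρ → Prop} {cV : V → ρ → R} {x : V → R}
    {cH : η → ρ → R} {b : η → V → R}

theorem Setup.disj (hS : Setup v k Kt cV x cH b) (U : Finset V) (K : Finset ρ)
    (hK : ∀ κ ∈ K, Kt κ) : Disjoint (U.image v) K := by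
  rw [Finset.disjoint_left]
  intro i hi hiK
  obtain ⟨u, -, rfl⟩ := Finset.mem_image.1 hi
  exact hS.v_not u (hK _ hiK)

theorem Setup.erase_v (hS : Setup v k Kt cV x cH b) (U : Finset V) (K : Finset ρ)
    (hK : ∀ κ ∈ K, Kt κ) {u : V} : (U.image v ∪ K).erase (v u) = (U.erase u).image v ∪ K := by
  ext i
  simp only [Finset.mem_erase, Finset.mem_union, Finset.mem_image]
  constructor
  · rintro ⟨h1, ⟨u', h2, rfl⟩ | h2⟩
    · exact Or.inl ⟨u', ⟨fun h => h1 (by rw [h]), h2⟩, rfl⟩
    · exact Or.inr h2
  · rintro (⟨u', ⟨h1, h2⟩, rfl⟩ | h2)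
    · exact ⟨fun h => h1 (hS.vinj h), Or.inl ⟨u', h2, rfl⟩⟩
    · refine ⟨?_, Or.inr h2⟩
      rintro rfl
      exact hS.v_not u (hK _ h2)

theorem Setup.erase_k (hS : Setup v k Kt cV x cH b) (U : Finset V) (K : Finset ρ)
    {κ : ρ} (hκ : Kt κ) : (U.image v ∪ K).erase κ = U.image v ∪ K.erase κ := by
  rw [Finset.erase_union_distrib, Finset.erase_eq_of_notMem]
  intro h
  obtain ⟨u, -, rfl⟩ := Finset.mem_image.1 h
  exact hS.v_not u hκ

/-- the last columns -/
theorem Setup.lemV (hS : Setup v k Kt cV x cH b) (l : List V) (hl : l.Nodup) :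
    ∀ (U : Finset V) (K : Finset ρ), (∀ u ∈ U, u ∈ l) → (∀ κ ∈ K, Kt κ) →
    U.card + K.card = l.length →
    pl (l.map cV) (U.image v ∪ K) = (K.card.factorial : R) * ∏ u ∈ U, x u := by
  induction l with
  | nil =>
    intro U K _ _ hc
    have h1 : U = ∅ := Finset.card_eq_zero.1 (by rw [List.length_nil] at hc; omega)
    have h2 : K = ∅ := Finset.card_eq_zero.1 (by rw [List.length_nil] at hc; omega)
    subst h1; subst h2
    simp [pl_nil]
  | cons u l ih =>
    intro U K hU hK hc
    obtain ⟨hul, hl'⟩ := List.nodup_cons.1 hl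
    rw [List.length_cons] at hc
    rw [List.map_cons, pl_cons, Finset.sum_union (hS.disj U K hK),
      Finset.sum_image (fun _ _ _ _ h => hS.vinj h)]
    by_cases hu : u ∈ U
    · -- the row of `u` is present
      have h1 : ∑ κ ∈ K, cV u κ * pl (l.map cV) ((U.image v ∪ K).erase κ) = 0 := by
        refine Finset.sum_eq_zero fun κ hκ => ?_
        rw [pl_zero_row _ _ (v u), mul_zero]
        · rw [hS.erase_k U K (hK κ hκ)]
          exact Finset.mem_union_left _ (Finset.mem_image_of_mem v hu)
        · intro c hc'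
          obtain ⟨u', hu', rfl⟩ := List.mem_map.1 hc'
          rw [hS.cV_v, if_neg]
          rintro rfl
          exact hul hu'
      rw [h1, add_zero, Finset.sum_eq_single u]
      · rw [hS.cV_v, if_pos rfl, hS.erase_v U K hK, ih hl' (U.erase u) K, ← Finset.mul_prod_erase U x hu]
        · ring
        · intro u' hu'
          rcases List.mem_cons.1 (hU u' (Finset.mem_of_mem_erase hu')) with h | h
          · exact absurd h (Finset.mem_erase.1 hu').1
          · exact h
        · exact hK
        · rw [Finset.card_erase_of_mem hu]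
          have := Finset.card_pos.2 ⟨u, hu⟩
          omega
      · intro u' _ hne
        rw [hS.cV_v, if_neg (Ne.symm hne), zero_mul]
      · intro h; exact absurd hu h
    · -- the row of `u` is not present
      have h1 : ∑ u' ∈ U, cV u (v u') * pl (l.map cV) ((U.image v ∪ K).erase (v u')) = 0 := by
        refine Finset.sum_eq_zero fun u' hu' => ?_
        rw [hS.cV_v, if_neg, zero_mul]
        rintro rfl
        exact hu hu'
      have hU' : ∀ u' ∈ U, u' ∈ l := by
        intro u' hu'
        rcases List.mem_cons.1 (hU u' hu') with h | h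
        · exact absurd (h ▸ hu') hu
        · exact h
      have hle : U.card ≤ l.length := by
        rw [← List.toFinset_card_of_nodup hl']
        exact Finset.card_le_card fun u' hu' => List.mem_toFinset.2 (hU' u' hu')
      have h2 : ∀ κ ∈ K, cV u κ * pl (l.map cV) ((U.image v ∪ K).erase κ) =
          ((K.card - 1).factorial : R) * ∏ u ∈ U, x u := by
        intro κ hκ
        rw [hS.cV_k u κ (hK κ hκ), one_mul, hS.erase_k U K (hK κ hκ), ih hl' U (K.erase κ) hU'
          (fun κ' hκ' => hK κ' (Finset.mem_of_mem_erase hκ')), Finset.card_erase_of_mem hκ]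
        rw [Finset.card_erase_of_mem hκ]
        have := Finset.card_pos.2 ⟨κ, hκ⟩
        omega
      rw [h1, zero_add, Finset.sum_congr rfl h2, Finset.sum_const, nsmul_eq_mul]
      obtain ⟨c, hc'⟩ : ∃ c, K.card = c + 1 := ⟨K.card - 1, by omega⟩
      rw [hc', Nat.add_sub_cancel, Nat.factorial_succ]
      push_cast
      ring

/-- the value of the last columns -/
def Rest (v : V → ρ) (Kt : ρ → Prop) (rest : List (ρ → R)) (g : Finset V → ℕ → R) : Prop :=
  ∀ (U : Finset V) (K : Finset ρ), (∀ κ ∈ K, Kt κ) → U.card + K.card = rest.length →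
    pl rest (U.image v ∪ K) = g U K.card

/-- regrouping -/
theorem regroup (a : V → R) (E : Finset V → R) (g : Finset V → ℕ → R) (U : Finset V) (c : ℕ) :
    ∑ u ∈ U, a u * ∑ W ∈ (U.erase u).powerset, E W * g (U.erase u \ W) (c + 1 + W.card) =
    ∑ W ∈ U.powerset, (∑ u ∈ W, a u * E (W.erase u)) * g (U \ W) (c + W.card) := by
  have h1 : ∀ u ∈ U, a u * ∑ W ∈ (U.erase u).powerset, E W * g (U.erase u \ W) (c + 1 + W.card) =
      ∑ W ∈ (U.erase u).powerset, a u * E ((insert u W).erase u) * g (U \ insert u W)
        (c + (insert u W).card) := by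
    intro u _
    rw [Finset.mul_sum]
    refine Finset.sum_congr rfl fun W hW => ?_
    have hu : u ∉ W := fun h => (Finset.mem_erase.1 (Finset.mem_powerset.1 hW h)).1 rfl
    rw [Finset.erase_insert hu, Finset.sdiff_insert, ← Finset.erase_sdiff_comm,
      Finset.card_insert_of_notMem hu, mul_assoc]
    congr 3
    omega
  rw [Finset.sum_congr rfl h1, sum_insert_powerset U (fun u W => a u * E (W.erase u) *
    g (U \ W) (c + W.card))]
  refine Finset.sum_congr rfl fun W _ => ?_
  rw [Finset.sum_mul]

theorem Setup.K_image (hS : Setup v k Kt cV x cH b) {K : Finset ρ} (hK : ∀ κ ∈ K, Kt κ)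
    (M : Finset η) : ∀ κ ∈ K ∪ M.image k, Kt κ := by
  intro κ hκ
  rcases Finset.mem_union.1 hκ with h | h
  · exact hK κ h
  · obtain ⟨h', -, rfl⟩ := Finset.mem_image.1 h
    exact hS.k_type h'

/-- the first columns -/
theorem Setup.lemH (hS : Setup v k Kt cV x cH b) {rest : List (ρ → R)} {g : Finset V → ℕ → R}
    (hg : Rest v Kt rest g) (l : List η) (hl : l.Nodup) :
    ∀ (U : Finset V) (K : Finset ρ), (∀ κ ∈ K, Kt κ) → (∀ h ∈ l, k h ∉ K) →
    U.card + K.card = rest.length →
    pl (l.map cH ++ rest) (U.image v ∪ (K ∪ l.toFinset.image k)) =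
      ∑ W ∈ U.powerset, Ez b l W * g (U \ W) (K.card + W.card) := by
  induction l with
  | nil =>
    intro U K hK _ hc
    rw [List.map_nil, List.nil_append, List.toFinset_nil, Finset.image_empty, Finset.union_empty,
      hg U K hK hc, Finset.sum_eq_single ∅]
    · rw [Ez, if_pos rfl, one_mul, Finset.card_empty, add_zero, Finset.sdiff_empty]
    · intro W _ hW
      rw [Ez, if_neg hW, zero_mul]
    · intro h; exact absurd (Finset.empty_mem_powerset U) h
  | cons h l ih =>
    intro U K hK hKl hc
    obtain ⟨hhl, hl'⟩ := List.nodup_cons.1 hl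
    have hKM := hS.K_image hK (h :: l).toFinset
    have hkn : k h ∉ K := hKl h List.mem_cons_self
    have e1 : (K ∪ (h :: l).toFinset.image k) = insert (k h) K ∪ l.toFinset.image k := by
      rw [List.toFinset_cons, Finset.image_insert, Finset.union_insert, Finset.insert_union]
    rw [List.map_cons, List.cons_append, pl_cons, Finset.sum_union (hS.disj U _ hKM),
      Finset.sum_image (fun _ _ _ _ h => hS.vinj h)]
    have h1 : ∀ u ∈ U, cH h (v u) * pl (l.map cH ++ rest)
        ((U.image v ∪ (K ∪ (h :: l).toFinset.image k)).erase (v u)) =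
        b h u * ∑ W ∈ (U.erase u).powerset, Ez b l W * g (U.erase u \ W) (K.card + 1 + W.card) := by
      intro u hu
      rw [hS.cH_v, hS.erase_v _ _ hKM, e1, ih hl' (U.erase u) (insert (k h) K)]
      · rw [Finset.card_insert_of_notMem hkn]
      · intro κ hκ
        rcases Finset.mem_insert.1 hκ with rfl | h2
        · exact hS.k_type h
        · exact hK κ h2
      · intro h' hh' h2
        rcases Finset.mem_insert.1 h2 with h3 | h3
        · exact hhl (hS.kinj h3 ▸ hh')
        · exact hKl h' (List.mem_cons_of_mem _ hh') h3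
      · rw [Finset.card_insert_of_notMem hkn, Finset.card_erase_of_mem hu]
        have := Finset.card_pos.2 ⟨u, hu⟩
        omega
    have h2 : ∑ κ ∈ K ∪ (h :: l).toFinset.image k, cH h κ * pl (l.map cH ++ rest)
        ((U.image v ∪ (K ∪ (h :: l).toFinset.image k)).erase κ) =
        ∑ W ∈ U.powerset, Ez b l W * g (U \ W) (K.card + W.card) := by
      rw [Finset.sum_eq_single (k h)]
      · rw [hS.cH_k, one_mul, hS.erase_k _ _ (hS.k_type h), e1, Finset.erase_union_distrib,
          Finset.erase_insert hkn, Finset.erase_eq_of_notMem (s := l.toFinset.image k),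
          ih hl' U K hK (fun h' hh' => hKl h' (List.mem_cons_of_mem _ hh')) hc]
        intro h3
        obtain ⟨h', hh', h4⟩ := Finset.mem_image.1 h3
        exact hhl (hS.kinj h4 ▸ List.mem_toFinset.1 hh')
      · intro κ hκ hne
        rw [hS.cH_ne h κ (hKM κ hκ) hne, zero_mul]
      · intro h3
        exfalso
        apply h3
        rw [e1]
        exact Finset.mem_union_left _ (Finset.mem_insert_self _ _)
    rw [Finset.sum_congr rfl h1, h2, regroup, add_comm, ← Finset.sum_add_distrib]
    refine Finset.sum_congr rfl fun W _ => ?_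
    rw [Ez_cons]
    ring

/-- the first columns, with one more row -/
theorem Setup.lemT (hS : Setup v k Kt cV x cH b) {rest : List (ρ → R)} {g : Finset V → ℕ → R}
    (hg : Rest v Kt rest g) {e : ρ} (hev : ∀ u, v u ≠ e) (heK : ¬ Kt e) {t : η → R}
    (het : ∀ h, cH h e = t h) (her : ∀ c ∈ rest, c e = 0) (l : List η) (hl : l.Nodup) :
    ∀ (U : Finset V) (K : Finset ρ), (∀ κ ∈ K, Kt κ) → (∀ h ∈ l, k h ∉ K) →
    U.card + K.card + 1 = rest.length →
    pl (l.map cH ++ rest) (insert e (U.image v ∪ (K ∪ l.toFinset.image k))) =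
      ∑ W ∈ U.powerset, Ed b t l W * g (U \ W) (K.card + 1 + W.card) := by
  induction l with
  | nil =>
    intro U K hK _ hc
    rw [List.map_nil, List.nil_append, pl_zero_row rest _ e (Finset.mem_insert_self _ _) her]
    simp [Ed]
  | cons h l ih =>
    intro U K hK hKl hc
    obtain ⟨hhl, hl'⟩ := List.nodup_cons.1 hl
    have hKM := hS.K_image hK (h :: l).toFinset
    have hkn : k h ∉ K := hKl h List.mem_cons_self
    have e1 : (K ∪ (h :: l).toFinset.image k) = insert (k h) K ∪ l.toFinset.image k := by
      rw [List.toFinset_cons, Finset.image_insert, Finset.union_insert, Finset.insert_union]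
    have hK1 : ∀ κ ∈ insert (k h) K, Kt κ := by
      intro κ hκ
      rcases Finset.mem_insert.1 hκ with rfl | h2
      · exact hS.k_type h
      · exact hK κ h2
    have hK2 : ∀ h' ∈ l, k h' ∉ insert (k h) K := by
      intro h' hh' h2
      rcases Finset.mem_insert.1 h2 with h3 | h3
      · exact hhl (hS.kinj h3 ▸ hh')
      · exact hKl h' (List.mem_cons_of_mem _ hh') h3
    have hen : e ∉ U.image v ∪ (K ∪ (h :: l).toFinset.image k) := by
      intro h2
      rcases Finset.mem_union.1 h2 with h3 | h3
      · obtain ⟨u, -, h4⟩ := Finset.mem_image.1 h3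
        exact hev u h4
      · exact heK (hKM e h3)
    rw [List.map_cons, List.cons_append, pl_cons, Finset.sum_insert hen,
      Finset.sum_union (hS.disj U _ hKM), Finset.sum_image (fun _ _ _ _ h => hS.vinj h),
      Finset.erase_insert hen, het, e1]
    rw [hS.lemH hg l hl' U (insert (k h) K) hK1 hK2
      (by rw [Finset.card_insert_of_notMem hkn]; omega), Finset.card_insert_of_notMem hkn]
    have h1 : ∀ u ∈ U, cH h (v u) * pl (l.map cH ++ rest)
        ((insert e (U.image v ∪ (insert (k h) K ∪ l.toFinset.image k))).erase (v u)) =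
        b h u * ∑ W ∈ (U.erase u).powerset, Ed b t l W *
          g (U.erase u \ W) (K.card + 1 + 1 + W.card) := by
      intro u hu
      rw [hS.cH_v, Finset.erase_insert_of_ne (hev u).symm, hS.erase_v _ _ (by rw [← e1]; exact hKM),
        ih hl' (U.erase u) (insert (k h) K) hK1 hK2]
      · rw [Finset.card_insert_of_notMem hkn]
      · rw [Finset.card_insert_of_notMem hkn, Finset.card_erase_of_mem hu]
        have := Finset.card_pos.2 ⟨u, hu⟩
        omega
    have h2 : ∑ κ ∈ insert (k h) K ∪ l.toFinset.image k, cH h κ * pl (l.map cH ++ rest)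
        ((insert e (U.image v ∪ (insert (k h) K ∪ l.toFinset.image k))).erase κ) =
        ∑ W ∈ U.powerset, Ed b t l W * g (U \ W) (K.card + 1 + W.card) := by
      rw [Finset.sum_eq_single (k h)]
      · have hek : e ≠ k h := fun h3 => heK (h3 ▸ hS.k_type h)
        rw [hS.cH_k, one_mul, Finset.erase_insert_of_ne hek, hS.erase_k _ _ (hS.k_type h),
          Finset.erase_union_distrib,
          Finset.erase_insert hkn, Finset.erase_eq_of_notMem (s := l.toFinset.image k),
          ih hl' U K hK (fun h' hh' => hKl h' (List.mem_cons_of_mem _ hh')) hc]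
        intro h3
        obtain ⟨h', hh', h4⟩ := Finset.mem_image.1 h3
        exact hhl (hS.kinj h4 ▸ List.mem_toFinset.1 hh')
      · intro κ hκ hne
        rw [hS.cH_ne h κ (by rw [← e1] at hκ; exact hKM κ hκ) hne, zero_mul]
      · intro h3
        exact absurd (Finset.mem_union_left _ (Finset.mem_insert_self _ _)) h3
    rw [Finset.sum_congr rfl h1, h2, regroup, Finset.mul_sum, ← Finset.sum_add_distrib,
      ← Finset.sum_add_distrib]
    refine Finset.sum_congr rfl fun W _ => ?_
    rw [Ed]
    ring

/-- the first columns, one row is removed -/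
theorem Setup.lemM (hS : Setup v k Kt cV x cH b) {rest : List (ρ → R)} {g : Finset V → ℕ → R}
    (hg : Rest v Kt rest g) (i : η) (l : List η) (hl : l.Nodup) (hi : i ∈ l) :
    ∀ (U : Finset V) (K : Finset ρ) (c : ℕ), (∀ κ ∈ K, Kt κ) → (∀ h ∈ l, k h ∉ K) →
    K.card = c + 1 → U.card + c = rest.length →
    pl (l.map cH ++ rest) (U.image v ∪ (K ∪ (l.toFinset.erase i).image k)) =
      ∑ W ∈ U.powerset, Em b i l W * g (U \ W) (c + W.card) := by
  induction l with
  | nil => simp at hi
  | cons h l ih =>
    intro U K c hK hKl hKc hc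
    obtain ⟨hhl, hl'⟩ := List.nodup_cons.1 hl
    have hKM := hS.K_image hK ((h :: l).toFinset.erase i)
    have hkn : k h ∉ K := hKl h List.mem_cons_self
    rw [List.map_cons, List.cons_append, pl_cons, Finset.sum_union (hS.disj U _ hKM),
      Finset.sum_image (fun _ _ _ _ h => hS.vinj h)]
    by_cases hhi : h = i
    · subst hhi
      have e1 : (h :: l).toFinset.erase h = l.toFinset := by
        rw [List.toFinset_cons, Finset.erase_insert (by simpa using hhl)]
      rw [e1] at hKM ⊢
      have h2 : ∑ κ ∈ K ∪ l.toFinset.image k, cH h κ * pl (l.map cH ++ rest)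
          ((U.image v ∪ (K ∪ l.toFinset.image k)).erase κ) = 0 := by
        refine Finset.sum_eq_zero fun κ hκ => ?_
        rw [hS.cH_ne h κ (hKM κ hκ), zero_mul]
        rintro rfl
        rcases Finset.mem_union.1 hκ with h3 | h3
        · exact hkn h3
        · obtain ⟨h', hh', h4⟩ := Finset.mem_image.1 h3
          exact hhl (hS.kinj h4 ▸ List.mem_toFinset.1 hh')
      have h1 : ∀ u ∈ U, cH h (v u) * pl (l.map cH ++ rest)
          ((U.image v ∪ (K ∪ l.toFinset.image k)).erase (v u)) =
          b h u * ∑ W ∈ (U.erase u).powerset, Ez b l W * g (U.erase u \ W) (c + 1 + W.card) := by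
        intro u hu
        rw [hS.cH_v, hS.erase_v _ _ hKM, hS.lemH hg l hl' (U.erase u) K hK
          (fun h' hh' => hKl h' (List.mem_cons_of_mem _ hh')), hKc]
        rw [Finset.card_erase_of_mem hu, hKc]
        have := Finset.card_pos.2 ⟨u, hu⟩
        omega
      rw [Finset.sum_congr rfl h1, h2, add_zero, regroup]
      refine Finset.sum_congr rfl fun W _ => ?_
      rw [Em, if_pos rfl]
    · have hi' : i ∈ l := by
        rcases List.mem_cons.1 hi with h1 | h1
        · exact absurd h1.symm hhi
        · exact h1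
      have e1 : (K ∪ ((h :: l).toFinset.erase i).image k) =
          insert (k h) K ∪ (l.toFinset.erase i).image k := by
        rw [List.toFinset_cons, Finset.erase_insert_of_ne hhi, Finset.image_insert,
          Finset.union_insert, Finset.insert_union]
      have hK1 : ∀ κ ∈ insert (k h) K, Kt κ := by
        intro κ hκ
        rcases Finset.mem_insert.1 hκ with rfl | h2
        · exact hS.k_type h
        · exact hK κ h2
      have hK2 : ∀ h' ∈ l, k h' ∉ insert (k h) K := by
        intro h' hh' h2
        rcases Finset.mem_insert.1 h2 with h3 | h3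
        · exact hhl (hS.kinj h3 ▸ hh')
        · exact hKl h' (List.mem_cons_of_mem _ hh') h3
      rw [e1] at hKM ⊢
      have h1 : ∀ u ∈ U, cH h (v u) * pl (l.map cH ++ rest)
          ((U.image v ∪ (insert (k h) K ∪ (l.toFinset.erase i).image k)).erase (v u)) =
          b h u * ∑ W ∈ (U.erase u).powerset, Em b i l W *
            g (U.erase u \ W) (c + 1 + W.card) := by
        intro u hu
        rw [hS.cH_v, hS.erase_v _ _ hKM, ih hl' hi' (U.erase u) (insert (k h) K) (c + 1) hK1 hK2]
        · rw [Finset.card_insert_of_notMem hkn, hKc]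
        · rw [Finset.card_erase_of_mem hu]
          have := Finset.card_pos.2 ⟨u, hu⟩
          omega
      have h2 : ∑ κ ∈ insert (k h) K ∪ (l.toFinset.erase i).image k,
          cH h κ * pl (l.map cH ++ rest)
          ((U.image v ∪ (insert (k h) K ∪ (l.toFinset.erase i).image k)).erase κ) =
          ∑ W ∈ U.powerset, Em b i l W * g (U \ W) (c + W.card) := by
        rw [Finset.sum_eq_single (k h)]
        · rw [hS.cH_k, one_mul, hS.erase_k _ _ (hS.k_type h), Finset.erase_union_distrib,
            Finset.erase_insert hkn,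
            Finset.erase_eq_of_notMem (s := (l.toFinset.erase i).image k),
            ih hl' hi' U K c hK (fun h' hh' => hKl h' (List.mem_cons_of_mem _ hh')) hKc hc]
          intro h3
          obtain ⟨h', hh', h4⟩ := Finset.mem_image.1 h3
          exact hhl (hS.kinj h4 ▸ List.mem_toFinset.1 (Finset.mem_of_mem_erase hh'))
        · intro κ hκ hne
          rw [hS.cH_ne h κ (hKM κ hκ) hne, zero_mul]
        · intro h3
          exact absurd (Finset.mem_union_left _ (Finset.mem_insert_self _ _)) h3
      rw [Finset.sum_congr rfl h1, h2, regroup, add_comm, ← Finset.sum_add_distrib]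
      refine Finset.sum_congr rfl fun W _ => ?_
      rw [Em, if_neg hhi]
      ring

end Pool.Agent.L5helper59.Per
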