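import Mathlib

/-!
# Arithmetic formulas over the complex numbers
-/

set_option autoImplicit false

namespace Pool.Agent.L5helper59.Per

/-- Arithmetic formulas in the variables `ι`: binary trees, the leaves are labelled by variables or
by complex numbers, the inner nodes are additions or multiplications. -/
inductive Formula (ι : Type) : Type
  | var (i : ι)
  | const (c : ℂ)
  | add (f g : Formula ι)
  | mul (f g : Formula ι)

/-- The value of the formula at the point `x`. -/
def Formula.eval {ι : Type} (x : ι → ℂ) : Formula ι → ℂ
  | .var i => x i
  | .const c => c
  | .add f g => f.eval x + g.eval x
  | .mul f g => f.eval x * g.eval x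

/-- The number of leaves of the formula which are labelled by the variable `i`. -/
def Formula.occ {ι : Type} [DecidableEq ι] (i : ι) : Formula ι → ℕ
  | .var j => if j = i then 1 else 0
  | .const _ => 0
  | .add f g => f.occ i + g.occ i
  | .mul f g => f.occ i + g.occ i

end Pool.Agent.L5helper59.Per
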