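import Pool.Agent.L5helper59.Per.Global
import Pool.Agent.L5helper59.Per.FormulaDef

/-!
# Formulas
-/

set_option autoImplicit false

namespace Pool.Agent.L5helper59.Per

open Finset Filter Topology

/-- the family of substitutions -/
theorem universal {p m : ℕ} (hm : 2 ^ (p + 1) + 2 * p + 1 ≤ m)
    (rs cs : Fin p ⊕ Fin p → Fin m) (hrs : Function.Injective rs) (hcs : Function.Injective cs) :
    ∃ N : (Par (Fin p) → ℂ) → Matrix (Fin m) (Fin m) ℂ, ∀ z S,
      (Matrix.of fun i j => N z i j + ∑ s, if rs s = i ∧ cs s = j then pt S s else 0).permanent =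
        G z S ∧ ∀ s, N z (rs s) (cs s) = 0 := by
  classical
  obtain ⟨q, hq⟩ : ∃ q, m = 2 ^ (p + 1) + 2 * p + 1 + q := ⟨_, (Nat.add_sub_cancel' hm).symm⟩
  have hcard : Fintype.card (Fin p ⊕ Fin p) +
      Fintype.card ((Finset (Fin p) ⊕ Finset (Fin p)) ⊕ (Unit ⊕ Fin q)) = m := by
    simp only [Fintype.card_sum, Fintype.card_fin, Fintype.card_finset, Fintype.card_unit]
    rw [hq, pow_succ]; ring
  obtain ⟨er, her⟩ := exists_equiv rs hrs hcard
  obtain ⟨ec, hec⟩ := exists_equiv cs hcs hcard
  have hM : ∀ (z : Finset (Fin p) → Finset (Fin p) → ℂ) x i j,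
      entry (q := q) z x (ec j) (er i) = entry (q := q) z 0 (ec j) (er i) +
        ∑ s, if rs s = i ∧ cs s = j then x s else 0 := by
    intro z x i j
    have key : ∀ a b : Idx (Fin p) q, entry z x b a = entry z 0 b a +
        ∑ s, if a = Sum.inl s ∧ b = Sum.inl s then x s else 0 := by
      intro a b
      rcases b with (u | u) | b
      · rw [Finset.sum_eq_single (Sum.inl u)]
        · rcases a with (u' | u') | ((h' | h') | (h' | i'))
          · by_cases huu : u = u'
            · subst huu; simp [entry]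
            · simp [entry, huu, Ne.symm huu]
          all_goals simp [entry]
        · intro s _ hs
          rw [if_neg]
          rintro ⟨-, h2⟩
          exact hs (Sum.inl_injective h2).symm
        · intro h; exact absurd (Finset.mem_univ _) h
      · rw [Finset.sum_eq_single (Sum.inr u)]
        · rcases a with (u' | u') | ((h' | h') | (h' | i'))
          · simp [entry]
          · by_cases huu : u = u'
            · subst huu; simp [entry]
            · simp [entry, huu, Ne.symm huu]
          all_goals simp [entry]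
        · intro s _ hs
          rw [if_neg]
          rintro ⟨-, h2⟩
          exact hs (Sum.inl_injective h2).symm
        · intro h; exact absurd (Finset.mem_univ _) h
      · rw [Finset.sum_eq_zero fun s _ => by rw [if_neg]; rintro ⟨-, h2⟩; simp at h2, add_zero]
        rcases a with (u' | u') | ((h' | h') | (h' | i')) <;>
        rcases b with ((h'' | h'') | (h'' | i'')) <;> rfl
    rw [key]
    congr 1
    refine Finset.sum_congr rfl fun s _ => ?_
    have e1 : er i = Sum.inl s ↔ rs s = i := by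
      rw [← her s]
      exact ⟨fun h => (er.injective h).symm, fun h => by rw [h]⟩
    have e2 : ec j = Sum.inl s ↔ cs s = j := by
      rw [← hec s]
      exact ⟨fun h => (ec.injective h).symm, fun h => by rw [h]⟩
    simp only [e1, e2]
  refine ⟨fun z => Matrix.of fun i j => entry (q := q) (ext z) 0 (ec j) (er i), fun z S => ⟨?_, ?_⟩⟩
  · have h1 := perm_val (q := q) (ext z) (pt S) er ec
    simp only [hM (ext z) (pt S)] at h1
    exact h1
  · intro s
    show entry (q := q) (ext z) 0 (ec (cs s)) (er (rs s)) = 0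
    rw [her, hec]
    rcases s with u | u <;> simp [entry]

/-- the shape of a formula -/
inductive Shape (V : Type) : Type
  | leaf (v : V)
  | node (b : Bool) (l r : Shape V)

namespace Shape

variable {V : Type}

/-- the number of leaves -/
def leaves : Shape V → ℕ
  | leaf _ => 1
  | node _ l r => l.leaves + r.leaves

/-- the number of parameters -/
def np : Shape V → ℕ
  | leaf _ => 2
  | node _ l r => 1 + l.np + r.np

theorem leaves_pos (s : Shape V) : 1 ≤ s.leaves := by
  induction s with
  | leaf v => exact le_refl _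
  | node b l r ihl ihr => rw [leaves]; omega

theorem np_eq (s : Shape V) : s.np + 1 = 3 * s.leaves := by
  induction s with
  | leaf v => rfl
  | node b l r ihl ihr => rw [leaves, np]; omega

variable {A B : Type*} [CommRing A] [CommRing B]

/-- the value -/
def sv (x : V → A) : Shape V → (ℕ → A) → A
  | leaf v, w => w 0 * x v + w 1
  | node true l r, w => (sv x l (fun i => w (1 + i)) + sv x r (fun i => w (1 + l.np + i))) + w 0
  | node false l r, w => (sv x l (fun i => w (1 + i)) * sv x r (fun i => w (1 + l.np + i))) + w 0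

theorem sv_congr (x : V → A) (s : Shape V) (w w' : ℕ → A) (h : ∀ i < s.np, w i = w' i) :
    sv x s w = sv x s w' := by
  induction s generalizing w w' with
  | leaf v => rw [sv, sv, h 0 (by rw [np]; norm_num), h 1 (by rw [np]; norm_num)]
  | node b l r ihl ihr =>
    rw [np] at h
    have h1 := ihl (fun i => w (1 + i)) (fun i => w' (1 + i)) fun i hi => h _ (by omega)
    have h2 := ihr (fun i => w (1 + l.np + i)) (fun i => w' (1 + l.np + i))
      fun i hi => h _ (by omega)
    cases b <;> rw [sv, sv, h1, h2, h 0 (by omega)]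

theorem sv_map (f : A →+* B) (x : V → A) (s : Shape V) (w : ℕ → A) :
    f (sv x s w) = sv (fun v => f (x v)) s (fun i => f (w i)) := by
  induction s generalizing w with
  | leaf v => simp [sv]
  | node b l r ihl ihr => cases b <;> simp [sv, ihl, ihr]

theorem sv_add_const (s : Shape V) (w : ℕ → A) (c : A) :
    ∃ w', ∀ x : V → A, sv x s w + c = sv x s w' := by
  cases s with
  | leaf v =>
    refine ⟨fun i => if i = 0 then w 0 else w 1 + c, fun x => ?_⟩
    simp [sv, add_assoc]
  | node b l r =>
    refine ⟨fun i => if i = 0 then w 0 + c else w i, fun x => ?_⟩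
    have e1 : (fun i => (fun i => if i = 0 then w 0 + c else w i) (1 + i)) =
        fun i => w (1 + i) := by
      funext i; simp
    have e2 : (fun i => (fun i => if i = 0 then w 0 + c else w i) (1 + l.np + i)) =
        fun i => w (1 + l.np + i) := by
      funext i
      show (if 1 + l.np + i = 0 then w 0 + c else w (1 + l.np + i)) = _
      rw [if_neg (by omega)]
    cases b <;> rw [sv, sv, e1, e2, if_pos rfl, add_assoc]

/-- two parameter sequences and a number -/
def merge (n : ℕ) (c : A) (w₁ w₂ : ℕ → A) (j : ℕ) : A :=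
  if j = 0 then c else if j - 1 < n then w₁ (j - 1) else w₂ (j - 1 - n)

omit [CommRing A] in
theorem merge_left (n : ℕ) (c : A) (w₁ w₂ : ℕ → A) (i : ℕ) (hi : i < n) :
    merge n c w₁ w₂ (1 + i) = w₁ i := by
  rw [merge, if_neg (by omega), if_pos (by omega)]
  congr 1; omega

omit [CommRing A] in
theorem merge_right (n : ℕ) (c : A) (w₁ w₂ : ℕ → A) (i : ℕ) :
    merge n c w₁ w₂ (1 + n + i) = w₂ i := by
  rw [merge, if_neg (by omega), if_neg (by omega)]
  congr 1; omega

theorem sv_node (b : Bool) (l r : Shape V) (w₁ w₂ : ℕ → A) (c : A) (x : V → A) :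
    sv x (node b l r) (merge l.np c w₁ w₂) =
      (if b then sv x l w₁ + sv x r w₂ else sv x l w₁ * sv x r w₂) + c := by
  have e1 : sv x l (fun i => merge l.np c w₁ w₂ (1 + i)) = sv x l w₁ :=
    sv_congr x l _ _ fun i hi => merge_left _ _ _ _ _ hi
  have e2 : (fun i => merge l.np c w₁ w₂ (1 + l.np + i)) = w₂ := by
    funext i; exact merge_right _ _ _ _ _
  cases b <;> rw [sv, e1, e2] <;> simp [merge]

theorem sv_smul (s : Shape V) (w : ℕ → A) (c : A) :
    ∃ w', ∀ x : V → A, c * sv x s w = sv x s w' := by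
  induction s generalizing w with
  | leaf v =>
    refine ⟨fun i => c * w i, fun x => ?_⟩
    simp [sv, mul_add, mul_assoc]
  | node b l r ihl ihr =>
    cases b with
    | true =>
      obtain ⟨w₁, h₁⟩ := ihl (fun i => w (1 + i))
      obtain ⟨w₂, h₂⟩ := ihr (fun i => w (1 + l.np + i))
      refine ⟨merge l.np (c * w 0) w₁ w₂, fun x => ?_⟩
      rw [sv_node, if_pos rfl, sv, ← h₁, ← h₂]; ring
    | false =>
      obtain ⟨w₁, h₁⟩ := ihl (fun i => w (1 + i))
      refine ⟨merge l.np (c * w 0) w₁ (fun i => w (1 + l.np + i)), fun x => ?_⟩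
      rw [sv_node, if_neg (by simp), sv, ← h₁]; ring

/-- there are only finitely many shapes with at most `R` leaves -/
theorem finite_shapes [Finite V] (R : ℕ) : {s : Shape V | s.leaves ≤ R}.Finite := by
  induction R with
  | zero =>
    refine Set.Finite.subset Set.finite_empty ?_
    intro s hs
    have := s.leaves_pos
    simp only [Set.mem_ofPred_eq] at hs
    omega
  | succ R ih =>
    refine Set.Finite.subset ((Set.finite_range (fun v : V => leaf v)).union
      (((Set.finite_univ (α := Bool)).prod (ih.prod ih)).image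
        fun t : Bool × Shape V × Shape V => node t.1 t.2.1 t.2.2)) ?_
    intro s hs
    cases s with
    | leaf v => exact Or.inl ⟨v, rfl⟩
    | node b l r =>
      refine Or.inr ⟨(b, l, r), ⟨Set.mem_univ _, ?_, ?_⟩, rfl⟩
      · have := r.leaves_pos
        simp only [Set.mem_ofPred_eq, leaves] at hs ⊢
        omega
      · have := l.leaves_pos
        simp only [Set.mem_ofPred_eq, leaves] at hs ⊢
        omega

end Shape

open Shape

/-- the number of the leaves which are labelled by variables of the block -/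
def cnt {ι V : Type} (σ : ι → V ⊕ ℂ) : Formula ι → ℕ
  | .var i => if (σ i).isLeft then 1 else 0
  | .const _ => 0
  | .add f g => cnt σ f + cnt σ g
  | .mul f g => cnt σ f + cnt σ g

/-- a formula in the variables of the block -/
theorem contract {ι V : Type} (σ : ι → V ⊕ ℂ) (f : Formula ι) :
    (∃ c : ℂ, ∀ x : V → ℂ, f.eval (fun i => Sum.elim x id (σ i)) = c) ∨
    (∃ s : Shape V, s.leaves ≤ cnt σ f ∧ ∃ w : ℕ → ℂ, ∀ x : V → ℂ,
      f.eval (fun i => Sum.elim x id (σ i)) = sv x s w) := by
  induction f with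
  | var i =>
    rcases hi : σ i with v | c
    · right
      refine ⟨leaf v, ?_, fun i => if i = 0 then 1 else 0, fun x => ?_⟩
      · rw [leaves, cnt, hi]; rfl
      · simp [Formula.eval, hi, sv]
    · left
      exact ⟨c, fun x => by simp [Formula.eval, hi]⟩
  | const c => exact Or.inl ⟨c, fun x => rfl⟩
  | add f g ihf ihg =>
    simp only [cnt, Formula.eval]
    rcases ihf with ⟨c, hc⟩ | ⟨s, hs, w, hw⟩ <;> rcases ihg with ⟨c', hc'⟩ | ⟨s', hs', w', hw'⟩
    · exact Or.inl ⟨c + c', fun x => by rw [hc, hc']⟩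
    · obtain ⟨w₁, h₁⟩ := sv_add_const s' w' c
      exact Or.inr ⟨s', by omega, w₁, fun x => by rw [hc, hw', ← h₁, add_comm]⟩
    · obtain ⟨w₁, h₁⟩ := sv_add_const s w c'
      exact Or.inr ⟨s, by omega, w₁, fun x => by rw [hc', hw, ← h₁]⟩
    · refine Or.inr ⟨node true s s', by rw [leaves]; omega, merge s.np 0 w w', fun x => ?_⟩
      rw [sv_node, if_pos rfl, hw, hw', add_zero]
  | mul f g ihf ihg =>
    simp only [cnt, Formula.eval]
    rcases ihf with ⟨c, hc⟩ | ⟨s, hs, w, hw⟩ <;> rcases ihg with ⟨c', hc'⟩ | ⟨s', hs', w', hw'⟩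
    · exact Or.inl ⟨c * c', fun x => by rw [hc, hc']⟩
    · obtain ⟨w₁, h₁⟩ := sv_smul s' w' c
      exact Or.inr ⟨s', by omega, w₁, fun x => by rw [hc, hw', ← h₁]⟩
    · obtain ⟨w₁, h₁⟩ := sv_smul s w c'
      exact Or.inr ⟨s, by omega, w₁, fun x => by rw [hc', hw, ← h₁, mul_comm]⟩
    · refine Or.inr ⟨node false s s', by rw [leaves]; omega, merge s.np 0 w w', fun x => ?_⟩
      rw [sv_node, if_neg (by simp), hw, hw', add_zero]

/-- the number of leaves of the block -/
theorem cnt_eq {ι V : Type} [DecidableEq ι] [Fintype V] (a : V → ι) (ha : Function.Injective a)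
    (σ : ι → V ⊕ ℂ) (h1 : ∀ v, σ (a v) = Sum.inl v) (h2 : ∀ i, (∀ v, a v ≠ i) → ∃ c, σ i = Sum.inr c)
    (f : Formula ι) : cnt σ f = ∑ v, f.occ (a v) := by
  induction f with
  | var i =>
    rw [cnt]
    by_cases hi : ∃ v, a v = i
    · obtain ⟨v, rfl⟩ := hi
      rw [h1, Finset.sum_eq_single v]
      · simp [Formula.occ]
      · intro v' _ hv'
        rw [Formula.occ, if_neg]
        exact fun h => hv' (ha h).symm
      · intro h; exact absurd (Finset.mem_univ _) h
    · push Not at hi
      obtain ⟨c, hc⟩ := h2 i hi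
      rw [hc, Finset.sum_eq_zero]
      · rfl
      · intro v _
        rw [Formula.occ, if_neg]
        exact fun h => hi v h.symm
  | const c => simp [cnt, Formula.occ]
  | add f g ihf ihg => simp only [cnt, Formula.occ, ihf, ihg, Finset.sum_add_distrib]
  | mul f g ihf ihg => simp only [cnt, Formula.occ, ihf, ihg, Finset.sum_add_distrib]

/-- the local bound -/
theorem formula_local {p m : ℕ} (hm : 2 ^ (p + 1) + 2 * p + 1 ≤ m)
    (f : ℕ → Formula (Fin m × Fin m)) (r : Fin m → Fin m → ℕ)
    (hr : ∀ k i j, (f k).occ (i, j) ≤ r i j)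
    (h : ∀ X : Matrix (Fin m) (Fin m) ℂ,
      Tendsto (fun k => (f k).eval (fun e => X e.1 e.2)) atTop (𝓝 X.permanent))
    (rs cs : Fin p ⊕ Fin p → Fin m) (hrs : Function.Injective rs) (hcs : Function.Injective cs) :
    (2 ^ p - 1) * 2 ^ p ≤ 3 * (∑ s, r (rs s) (cs s)) + 1 := by
  classical
  obtain ⟨N, hN⟩ := universal hm rs cs hrs hcs
  set R := ∑ s, r (rs s) (cs s) with hR
  -- the substitution
  let a : Fin p ⊕ Fin p → Fin m × Fin m := fun s => (rs s, cs s)
  have ha : Function.Injective a := fun s s' hs => hrs (congrArg Prod.fst hs)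
  let σ : (Par (Fin p) → ℂ) → Fin m × Fin m → (Fin p ⊕ Fin p) ⊕ ℂ := fun z e =>
    if he : ∃ s, a s = e then Sum.inl he.choose else Sum.inr (N z e.1 e.2)
  have hσ1 : ∀ z s, σ z (a s) = Sum.inl s := by
    intro z s
    have he : ∃ s', a s' = a s := ⟨s, rfl⟩
    show (if he : ∃ s', a s' = a s then Sum.inl he.choose else _) = _
    rw [dif_pos he]
    exact congrArg _ (ha he.choose_spec)
  have hσ2 : ∀ z e, (∀ s, a s ≠ e) → σ z e = Sum.inr (N z e.1 e.2) := by
    intro z e he
    show (if he : ∃ s', a s' = e then Sum.inl he.choose else _) = _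
    rw [dif_neg]
    rintro ⟨s, hs⟩
    exact he s hs
  have hlim : ∀ (z : Par (Fin p) → ℂ) (S : Finset (Fin p ⊕ Fin p)),
      Tendsto (fun k => (f k).eval (fun e => Sum.elim (pt S) id (σ z e))) atTop (𝓝 (G z S)) := by
    intro z S
    rw [← (hN z S).1]
    refine (h _).congr fun k => ?_
    congr 1
    funext e
    rw [Matrix.of_apply]
    by_cases he : ∃ s, a s = e
    · obtain ⟨s, rfl⟩ := he
      rw [hσ1, Sum.elim_inl, Finset.sum_eq_single s]
      · show N z (rs s) (cs s) + (if rs s = rs s ∧ cs s = cs s then pt S s else 0) = pt S s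
        rw [(hN z S).2, if_pos ⟨rfl, rfl⟩, zero_add]
      · intro s' _ hs'
        rw [if_neg]
        exact fun h' => hs' (hrs h'.1)
      · intro h'; exact absurd (Finset.mem_univ _) h'
    · push Not at he
      rw [hσ2 z e he, Sum.elim_inr, Finset.sum_eq_zero]
      · rw [add_zero]; rfl
      · intro s _
        rw [if_neg]
        exact fun h' => he s (Prod.ext h'.1 h'.2)
  -- the shapes
  have hfin : Finite {s : Shape (Fin p ⊕ Fin p) | s.leaves ≤ R} := (Shape.finite_shapes (V := Fin p ⊕ Fin p) R)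
  let Y₀ : Type := Option {s : Shape (Fin p ⊕ Fin p) | s.leaves ≤ R}
  have : Fintype Y₀ := Fintype.ofFinite _
  let W : ℕ → MvPolynomial (Fin (3 * R + 1)) ℂ := fun i =>
    if hi : i < 3 * R + 1 then MvPolynomial.X ⟨i, hi⟩ else 0
  have hdim := dim_bound (T := Par (Fin p)) (Y := Finset (Fin p ⊕ Fin p)) (κ := Fin (3 * R + 1))
    (Y₀ := Y₀) (G (V := Fin p)) G_inj
    (fun y S => match y with
      | none => MvPolynomial.X 0
      | some s => sv (fun v => MvPolynomial.C (pt S v)) s.1 W) ?_
  · have c1 : Fintype.card (Par (Fin p)) = (2 ^ p - 1) * 2 ^ p := by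
      rw [Fintype.card_prod, Fintype.card_finset, Fintype.card_fin, Fintype.card_subtype_compl,
        Fintype.card_finset, Fintype.card_fin]
      simp
    rwa [c1, Fintype.card_fin] at hdim
  · intro z _
    have hk : ∀ k, ∃ (y : Y₀) (w : Fin (3 * R + 1) → ℂ), ∀ S,
        (f k).eval (fun e => Sum.elim (pt S) id (σ z e)) = MvPolynomial.eval w (match y with
          | none => MvPolynomial.X 0
          | some s => sv (fun v => MvPolynomial.C (pt S v)) s.1 W) := by
      intro k
      have hc : cnt (σ z) (f k) ≤ R := by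
        rw [cnt_eq a ha (σ z) (hσ1 z) (fun e he => ⟨_, hσ2 z e he⟩)]
        exact Finset.sum_le_sum fun s _ => hr k _ _
      rcases contract (σ z) (f k) with ⟨c, hc'⟩ | ⟨s, hs, w, hw⟩
      · exact ⟨none, fun _ => c, fun S => by rw [hc', MvPolynomial.eval_X]⟩
      · refine ⟨some ⟨s, hs.trans hc⟩, fun i => w i, fun S => ?_⟩
        rw [hw, sv_map]
        simp only [MvPolynomial.eval_C]
        refine sv_congr _ _ _ _ fun i hi => ?_
        have h1 := s.np_eq
        have h2 : i < 3 * R + 1 := by omega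
        simp only [W]
        rw [dif_pos h2, MvPolynomial.eval_X]
    choose y w hyw using hk
    obtain ⟨y₀, hy₀⟩ : ∃ y₀, ∃ᶠ k in atTop, y k = y₀ := by
      by_contra hcon
      simp only [not_exists, Filter.not_frequently] at hcon
      have h1 := Filter.eventually_all.2 hcon
      obtain ⟨k, hk⟩ := h1.exists
      exact hk (y k) rfl
    obtain ⟨e, he, hey⟩ := Filter.extraction_of_frequently_atTop hy₀
    refine ⟨y₀, fun k => w (e k), fun S => ?_⟩
    refine ((hlim z S).comp he.tendsto_atTop).congr fun k => ?_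
    rw [Function.comp_apply, hyw, hey]
    rcases y₀ with _ | s <;> rfl

theorem quad_arith {p R : ℕ} (hp : 1 ≤ p) (h : (2 ^ p - 1) * 2 ^ p ≤ 3 * R + 1) :
    2 ^ p * 2 ^ p ≤ 12 * R := by
  have h5 : 2 ≤ 2 ^ p := by
    calc 2 = 2 ^ 1 := by norm_num
      _ ≤ 2 ^ p := Nat.pow_le_pow_right (by norm_num) hp
  rcases Nat.lt_or_ge p 2 with h1 | h1
  · have : p = 1 := by omega
    subst this
    norm_num at h ⊢
    omega
  · obtain ⟨a, ha⟩ : ∃ a, 2 ^ p = a + 1 := ⟨2 ^ p - 1, by omega⟩
    have h6 : 4 ≤ 2 ^ p := by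
      calc 4 = 2 ^ 2 := by norm_num
        _ ≤ 2 ^ p := Nat.pow_le_pow_right (by norm_num) h1
    rw [ha] at h h6 ⊢
    rw [Nat.add_sub_cancel] at h
    nlinarith

theorem quartic_arith {m S c : ℕ} (hm : 8 ≤ m)
    (hc : 2 ^ (Nat.log 2 m - 2) * 2 ^ (Nat.log 2 m - 2) ≤ 12 * c)
    (h : m * (m / (2 * (Nat.log 2 m - 2))) * c ≤ S) :
    m ^ 4 ≤ 3072 * Nat.log 2 m * S := by
  obtain ⟨h1, h2, h3, h4⟩ := log_arith hm
  have h5 : m < 2 ^ (Nat.log 2 m + 1) := Nat.lt_pow_succ_log_self (by norm_num) m
  have h3' : 3 ≤ Nat.log 2 m := Nat.le_log_of_pow_le (by norm_num) (by omega)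
  have h6 : 2 ^ (Nat.log 2 m + 1) = 8 * 2 ^ (Nat.log 2 m - 2) := by
    have : Nat.log 2 m + 1 = (Nat.log 2 m - 2) + 3 := by omega
    rw [this, pow_add]; ring
  rw [h6] at h5
  set p := Nat.log 2 m - 2 with hp
  have h7 : m * m ≤ 768 * c := by nlinarith
  calc m ^ 4 = m * m * (m * m) := by ring
    _ ≤ m * (4 * p * (m / (2 * p))) * (768 * c) :=
        Nat.mul_le_mul (Nat.mul_le_mul_left _ h4) h7
    _ = 3072 * p * (m * (m / (2 * p)) * c) := by ring
    _ ≤ 3072 * Nat.log 2 m * S := Nat.mul_le_mul (Nat.mul_le_mul_left _ (by omega)) h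

end Pool.Agent.L5helper59.Per
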