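import Pool.Agent.L5helper59.Per.Formula

/-!
# Formulas for the permanent have at least `m ^ 4 / (3072 * log₂ m)` leaves

Arithmetic formulas have leaves labelled by variables or arbitrary complex constants and gates for
additions and multiplications. Leaves labelled by constants are not counted. The bound also holds
for sequences of formulas whose values converge to the permanent.

Proof. We use the substitutions of `NearCubicRank`: after substituting constants outside of a set
of `2 p` cells, no two in the same row or column, there is a linear family of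
`(2 ^ p - 1) * 2 ^ p` parameters which can be recovered from the values. A formula with `R` leaves
labelled by variables of the block has one of finitely many shapes and is described by `3 R - 1`
complex numbers.
-/

set_option autoImplicit false

open Filter Topology

namespace Pool.Agent.Results.MP_35c45d_lc.FormulaLowerBound

open Pool.Agent.L5helper59.Per

theorem result (m : ℕ) (f : ℕ → Formula (Fin m × Fin m)) (r : Fin m → Fin m → ℕ)
    (hr : ∀ k i j, (f k).occ (i, j) ≤ r i j)
    (h : ∀ X : Matrix (Fin m) (Fin m) ℂ,
      Tendsto (fun k => (f k).eval (fun e => X e.1 e.2)) atTop (𝓝 X.permanent)) :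
    (∀ p : ℕ, 2 ^ (p + 1) + 2 * p + 1 ≤ m → ∀ a b : Fin p ⊕ Fin p → Fin m,
      Function.Injective a → Function.Injective b →
        (2 ^ p - 1) * 2 ^ p ≤ 3 * (∑ s, r (a s) (b s)) + 1) ∧
    (8 ≤ m → m ^ 4 ≤ 3072 * Nat.log 2 m * ∑ i, ∑ j, r i j) := by
  have h1 : ∀ p : ℕ, 2 ^ (p + 1) + 2 * p + 1 ≤ m → ∀ a b : Fin p ⊕ Fin p → Fin m,
      Function.Injective a → Function.Injective b →
        (2 ^ p - 1) * 2 ^ p ≤ 3 * (∑ s, r (a s) (b s)) + 1 :=
    fun p hp a b ha hb => formula_local hp f r hr h a b ha hb
  refine ⟨h1, fun hm => ?_⟩
  obtain ⟨hp1, hp2, -, -⟩ := log_arith hm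
  refine quartic_arith (c := (2 ^ (Nat.log 2 m - 2) * 2 ^ (Nat.log 2 m - 2) + 11) / 12) hm
    (by omega) (block_sum (by omega) r _ fun a b ha hb => ?_)
  have h2 := quad_arith hp1 (h1 _ hp2 a b ha hb)
  omega

end Pool.Agent.Results.MP_35c45d_lc.FormulaLowerBound
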