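import Pool.Agent.L5helper59.Per.Local

/-!
# The global bound
-/

set_option autoImplicit false

namespace Pool.Agent.L5helper59.Per

open Finset Filter Topology

theorem sq_arith (p R : ℕ) (h : (2 ^ p - 1) * 2 ^ p ≤ R ^ 2 + 1) : 2 ^ p - 1 ≤ R := by
  by_contra hlt
  rw [not_le] at hlt
  obtain ⟨a, ha⟩ : ∃ a, 2 ^ p = a + 1 := ⟨2 ^ p - 1, by have := Nat.one_le_two_pow (n := p); omega⟩
  rw [ha, Nat.add_sub_cancel] at h hlt
  nlinarith

/-- the number of disjoint blocks -/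
theorem block_sum {m p : ℕ} (hm : 0 < m) (r : Fin m → Fin m → ℕ) (c : ℕ)
    (h : ∀ rs cs : Fin p ⊕ Fin p → Fin m, Function.Injective rs → Function.Injective cs →
      c ≤ ∑ s, r (rs s) (cs s)) :
    m * (m / (2 * p)) * c ≤ ∑ i, ∑ j, r i j := by
  classical
  have : NeZero m := ⟨hm.ne'⟩
  rcases Nat.eq_zero_or_pos p with hp | hp
  · subst hp; simp
  -- the rows of the blocks
  have hlt : ∀ (b : Fin (m / (2 * p))) (x : ℕ), x < 2 * p → 2 * p * b + x < m := by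
    intro b x hx
    have h1 : 2 * p * (b + 1) ≤ m := by
      calc 2 * p * (b + 1) ≤ 2 * p * (m / (2 * p)) := Nat.mul_le_mul_left _ b.2
        _ ≤ m := Nat.mul_div_le m (2 * p)
    rw [mul_add, mul_one] at h1
    omega
  let ix : Fin p ⊕ Fin p → ℕ := Sum.elim (fun u : Fin p => (u : ℕ)) (fun u : Fin p => p + (u : ℕ))
  have hix : ∀ s, ix s < 2 * p := by
    rintro (u | u)
    · show (u : ℕ) < 2 * p
      omega
    · show p + (u : ℕ) < 2 * p
      omega
  have hixi : Function.Injective ix := by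
    rintro (u | u) (u' | u') huv
    · have : (u : ℕ) = u' := huv
      rw [Fin.ext this]
    · have h1 : (u : ℕ) = p + u' := huv
      omega
    · have h1 : p + (u : ℕ) = u' := huv
      omega
    · have h1 : p + (u : ℕ) = p + u' := huv
      rw [Fin.ext (Nat.add_left_cancel h1)]
  let Rw : Fin (m / (2 * p)) × (Fin p ⊕ Fin p) → Fin m := fun x =>
    ⟨2 * p * x.1 + ix x.2, hlt x.1 _ (hix x.2)⟩
  have hRw : Function.Injective Rw := by
    rintro ⟨b, s⟩ ⟨b', s'⟩ hbb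
    have h1 : 2 * p * b + ix s = 2 * p * b' + ix s' := congrArg Fin.val hbb
    have h2 : (b : ℕ) = b' := by
      have h3 := congrArg (· / (2 * p)) h1
      simp only [Nat.mul_add_div (by omega : 0 < 2 * p), Nat.div_eq_of_lt (hix s),
        Nat.div_eq_of_lt (hix s'), add_zero] at h3
      exact h3
    rw [h2] at h1
    rw [Fin.ext h2, hixi (Nat.add_left_cancel h1)]
  have h1 : ∑ i, ∑ j, r i j = ∑ k : Fin m, ∑ i, r i (i + k) := by
    symm
    rw [Finset.sum_comm]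
    refine Finset.sum_congr rfl fun i _ => ?_
    exact Equiv.sum_comp (Equiv.addLeft i) (fun j => r i j)
  rw [h1]
  have h2 : ∀ k : Fin m, (m / (2 * p)) * c ≤ ∑ i, r i (i + k) := by
    intro k
    have h3 : ∑ x : Fin (m / (2 * p)) × (Fin p ⊕ Fin p), r (Rw x) (Rw x + k) ≤
        ∑ i, r i (i + k) := by
      rw [← Finset.sum_image (f := fun i => r i (i + k)) (s := Finset.univ) (g := Rw)
        (fun _ _ _ _ h => hRw h)]
      exact Finset.sum_le_sum_of_subset (Finset.subset_univ _)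
    refine le_trans ?_ h3
    rw [Fintype.sum_prod_type]
    have h4 : ∀ b : Fin (m / (2 * p)), c ≤ ∑ s, r (Rw (b, s)) (Rw (b, s) + k) := by
      intro b
      refine h (fun s => Rw (b, s)) (fun s => Rw (b, s) + k) ?_ ?_
      · intro s s' hs
        exact (Prod.mk.inj (hRw hs)).2
      · intro s s' hs
        exact (Prod.mk.inj (hRw (add_right_cancel hs))).2
    calc (m / (2 * p)) * c = ∑ _b : Fin (m / (2 * p)), c := by simp
      _ ≤ _ := Finset.sum_le_sum fun b _ => h4 b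
  calc m * (m / (2 * p)) * c = ∑ _k : Fin m, (m / (2 * p)) * c := by simp [mul_assoc]
    _ ≤ _ := Finset.sum_le_sum fun k _ => h2 k

/-- the arithmetic -/
theorem log_arith {m : ℕ} (hm : 8 ≤ m) : 1 ≤ Nat.log 2 m - 2 ∧
    2 ^ (Nat.log 2 m - 2 + 1) + 2 * (Nat.log 2 m - 2) + 1 ≤ m ∧
    m ≤ 16 * (2 ^ (Nat.log 2 m - 2) - 1) ∧
    m ≤ 4 * (Nat.log 2 m - 2) * (m / (2 * (Nat.log 2 m - 2))) := by
  have h3 : 3 ≤ Nat.log 2 m := Nat.le_log_of_pow_le (by norm_num) (by omega)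
  obtain ⟨p, hp⟩ : ∃ p, Nat.log 2 m = p + 2 := ⟨Nat.log 2 m - 2, by omega⟩
  have hp1 : 1 ≤ p := by omega
  have h1 : 2 ^ (p + 2) ≤ m := by
    rw [← hp]; exact Nat.pow_log_le_self 2 (by omega)
  have h2 : m < 2 ^ (p + 3) := by
    have := Nat.lt_pow_succ_log_self (b := 2) (by norm_num) m
    rwa [hp] at this
  rw [hp, Nat.add_sub_cancel]
  have h4 : p + 1 ≤ 2 ^ p := Nat.lt_two_pow_self
  have h5 : 2 ≤ 2 ^ p := by
    calc 2 = 2 ^ 1 := by norm_num
      _ ≤ 2 ^ p := Nat.pow_le_pow_right (by norm_num) hp1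
  have e1 : 2 ^ (p + 1) = 2 * 2 ^ p := by rw [pow_succ]; ring
  have e2 : 2 ^ (p + 2) = 4 * 2 ^ p := by rw [pow_add]; ring
  have e3 : 2 ^ (p + 3) = 8 * 2 ^ p := by rw [pow_add]; ring
  refine ⟨hp1, by omega, by omega, ?_⟩
  have h6 : 1 ≤ m / (2 * p) := by
    rw [Nat.one_le_div_iff (by omega)]; omega
  have h7 := Nat.lt_mul_div_succ m (show 0 < 2 * p by omega)
  calc m ≤ 2 * p * (m / (2 * p) + 1) := h7.le
    _ ≤ 2 * p * (m / (2 * p) + m / (2 * p)) := Nat.mul_le_mul_left _ (by omega)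
    _ = 4 * p * (m / (2 * p)) := by ring

theorem cubic_arith {m S : ℕ} (hm : 8 ≤ m)
    (h : m * (m / (2 * (Nat.log 2 m - 2))) * (2 ^ (Nat.log 2 m - 2) - 1) ≤ S) :
    m ^ 3 ≤ 64 * Nat.log 2 m * S := by
  obtain ⟨h1, h2, h3, h4⟩ := log_arith hm
  set p := Nat.log 2 m - 2 with hp
  calc m ^ 3 = m * (m * m) := by ring
    _ ≤ m * ((4 * p * (m / (2 * p))) * (16 * (2 ^ p - 1))) :=
        Nat.mul_le_mul_left _ (Nat.mul_le_mul h4 h3)
    _ = 64 * p * (m * (m / (2 * p)) * (2 ^ p - 1)) := by ring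
    _ ≤ 64 * Nat.log 2 m * S := Nat.mul_le_mul (Nat.mul_le_mul_left _ (by omega)) h

end Pool.Agent.L5helper59.Per
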