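import Pool.Agent.L5helper59.Per.Zeon

/-!
# Linear independence
-/

set_option autoImplicit false

namespace Pool.Agent.L5helper59.Per

open Finset

variable {V : Type*} [DecidableEq V] {K : Type*} [Field K] [CharZero K]

omit [CharZero K] in
/-- inversion of a convolution -/
theorem conv_inj (a E : Finset V → K) (hE : E ∅ = 1)
    (h : ∀ U, ∑ Q ∈ U.powerset, a Q * E (U \ Q) = 0) : ∀ U, a U = 0 := by
  intro U
  induction U using Finset.strongInduction with
  | H U ih =>
    have h1 := h U
    rw [Finset.sum_eq_single U] at h1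
    · rwa [Finset.sdiff_self, hE, mul_one] at h1
    · intro Q hQ hQU
      rw [ih Q (Finset.ssubset_iff_subset_ne.2 ⟨Finset.mem_powerset.1 hQ, hQU⟩), zero_mul]
    · intro h2
      exact absurd (Finset.mem_powerset_self U) h2

/-- the indicator matrix -/
def bb (h : Finset V) (u : V) : K := if u ∈ h then 1 else 0

omit [CharZero K] in
theorem bb_sq (h : Finset V) (u : V) : (bb h u : K) * bb h u = bb h u := by
  unfold bb; split_ifs <;> simp

omit [CharZero K] in
theorem prod_bb (h Q : Finset V) : ∏ u ∈ Q, (bb h u : K) = if Q ⊆ h then 1 else 0 := by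
  unfold bb
  rw [Finset.prod_ite_zero]
  simp [Finset.subset_iff]

variable [Fintype V]

omit [CharZero K] in
/-- inversion of the sums over supersets -/
theorem superset_inj (t : Finset V → K) (P : Finset V → Prop)
    (hP : ∀ Q Q', Q ⊆ Q' → P Q → P Q')
    (h : ∀ Q, P Q → ∑ j : Finset V, t j * ∏ u ∈ Q, (bb j u : K) = 0) : ∀ Q, P Q → t Q = 0 := by
  have key : ∀ (n : ℕ) (Q : Finset V), (Qᶜ).card = n → P Q → t Q = 0 := by
    intro n
    induction n using Nat.strong_induction_on with
    | _ n ih =>
      intro Q hn hQ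
      have h1 := h Q hQ
      rw [Finset.sum_eq_single Q] at h1
      · rwa [prod_bb, if_pos (Finset.Subset.refl Q), mul_one] at h1
      · intro j _ hj
        rw [prod_bb]
        split_ifs with hQj
        · have hlt : (jᶜ).card < (Qᶜ).card := by
            refine Finset.card_lt_card ?_
            rw [Finset.compl_ssubset_compl]
            exact Finset.ssubset_iff_subset_ne.2 ⟨hQj, Ne.symm hj⟩
          rw [ih _ (by omega) j rfl (hP _ _ hQj hQ), zero_mul]
        · rw [mul_zero]
      · intro h2
        exact absurd (Finset.mem_univ Q) h2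
  exact fun Q => key _ Q rfl

/-- the list of all subsets -/
noncomputable def all (V : Type*) [Fintype V] : List (Finset V) :=
  (Finset.univ : Finset (Finset V)).toList

theorem all_nodup : (all V).Nodup := Finset.nodup_toList _

theorem mem_all (h : Finset V) : h ∈ all V := by
  rw [all, Finset.mem_toList]; exact Finset.mem_univ h

theorem all_toFinset : (all V).toFinset = Finset.univ := by
  rw [all, Finset.toList_toFinset]

theorem all_length : (all V).length = 2 ^ Fintype.card V := by
  rw [all, Finset.length_toList, Finset.card_univ, Fintype.card_finset]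

/-- the first injectivity -/
theorem inj_Ed (t : Finset V → K) (h : ∀ U, Ed bb t (all V) U = 0) : ∀ j, t j = 0 := by
  have h1 : ∀ U, ((-1) ^ U.card * (U.card.factorial : K) *
      (∑ j ∈ (all V).toFinset, t j * ∏ u ∈ ∅ ∪ U, (bb j u : K))) = 0 := by
    refine conv_inj _ (Ez bb (all V)) (Ez_empty _ _) fun U => ?_
    rw [← inversion bb t bb_sq U.card U ∅ rfl, ← h U, Ed_eq bb t all_nodup]
    refine Finset.sum_congr rfl fun j _ => ?_
    rw [Finset.prod_empty, mul_one]
  intro j
  refine superset_inj t (fun _ => True) (fun _ _ _ _ => trivial) (fun Q _ => ?_) j trivial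
  have h2 := h1 Q
  rw [all_toFinset, Finset.empty_union] at h2
  rcases mul_eq_zero.1 h2 with h3 | h3
  · rcases mul_eq_zero.1 h3 with h4 | h4
    · exact absurd h4 (pow_ne_zero _ (neg_ne_zero.2 one_ne_zero))
    · exact absurd h4 (Nat.cast_ne_zero.2 (Nat.factorial_ne_zero _))
  · exact h3

/-- the second injectivity -/
theorem inj_Em (t : Finset V → K) (h : ∀ U, ∑ i : Finset V, t i * Em bb i (all V) U = 0) :
    ∀ j, j ≠ ∅ → t j = 0 := by
  set τ : K := ∑ j : Finset V, t j with hτ
  have h1 : ∀ U, (if U = ∅ then 0 else ((-1) ^ U.card * (U.card.factorial : K) *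
      (∑ j ∈ (all V).toFinset, t j * ∏ u ∈ ∅ ∪ U, (bb j u : K)))) = 0 := by
    refine conv_inj _ (Ez bb (all V)) (Ez_empty _ _) fun U => ?_
    have h2 := inversion bb t (l := all V) bb_sq U.card U ∅ rfl
    have h3 : ∑ j ∈ (all V).toFinset, (t j * ∏ u ∈ ∅, (bb j u : K)) * Ez bb ((all V).erase j) U =
        τ * Ez bb (all V) U := by
      have h4 := h U
      rw [Finset.sum_congr rfl fun i _ => by rw [Em_eq bb all_nodup (mem_all i), mul_sub],
        Finset.sum_sub_distrib, ← Finset.sum_mul, sub_eq_zero] at h4
      rw [all_toFinset, hτ, h4]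
      refine Finset.sum_congr rfl fun j _ => ?_
      rw [Finset.prod_empty, mul_one]
    rw [h3, ← Finset.add_sum_erase _ _ (Finset.empty_mem_powerset U)] at h2
    have h5 : (-1) ^ (∅ : Finset V).card * ((∅ : Finset V).card.factorial : K) *
        (∑ j ∈ (all V).toFinset, t j * ∏ u ∈ ∅ ∪ ∅, (bb j u : K)) * Ez bb (all V) (U \ ∅) =
        τ * Ez bb (all V) U := by
      rw [all_toFinset, hτ]
      simp
    rw [h5] at h2
    rw [← Finset.add_sum_erase _ _ (Finset.empty_mem_powerset U), if_pos rfl, zero_mul, zero_add]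
    have h6 : ∀ Q ∈ U.powerset.erase ∅, (if Q = ∅ then 0 else ((-1) ^ Q.card *
        (Q.card.factorial : K) * (∑ j ∈ (all V).toFinset, t j * ∏ u ∈ ∅ ∪ Q, (bb j u : K)))) *
        Ez bb (all V) (U \ Q) = (-1) ^ Q.card *
        (Q.card.factorial : K) * (∑ j ∈ (all V).toFinset, t j * ∏ u ∈ ∅ ∪ Q, (bb j u : K)) *
        Ez bb (all V) (U \ Q) := by
      intro Q hQ
      rw [if_neg (Finset.mem_erase.1 hQ).1]
    rw [Finset.sum_congr rfl h6]
    linear_combination -h2
  intro j
  refine superset_inj t (fun Q => Q ≠ ∅) (fun Q Q' hQ h2 h3 => ?_) (fun Q hQ => ?_) j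
  · rw [h3] at hQ
    exact h2 (Finset.subset_empty.1 hQ)
  · have h2 := h1 Q
    rw [if_neg hQ, all_toFinset, Finset.empty_union] at h2
    rcases mul_eq_zero.1 h2 with h3 | h3
    · rcases mul_eq_zero.1 h3 with h4 | h4
      · exact absurd h4 (pow_ne_zero _ (neg_ne_zero.2 one_ne_zero))
      · exact absurd h4 (Nat.cast_ne_zero.2 (Nat.factorial_ne_zero _))
    · exact h3

omit [CharZero K] in
/-- a multilinear function which vanishes on the vertices of the cube -/
theorem cube_inj (c : Finset V → K)
    (h : ∀ X : Finset V, ∑ U ∈ (Finset.univ : Finset V).powerset,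
      c U * ∏ u ∈ Finset.univ \ U, (if u ∈ X then (1 : K) else 0) = 0) : ∀ U, c U = 0 := by
  have key : ∀ (n : ℕ) (U : Finset V), (Uᶜ).card = n → c U = 0 := by
    intro n
    induction n using Nat.strong_induction_on with
    | _ n ih =>
      intro U hn
      have h1 := h Uᶜ
      rw [Finset.sum_eq_single U] at h1
      · rw [Finset.prod_congr rfl fun u hu => by
          rw [if_pos (by simpa using hu)], Finset.prod_const_one, mul_one] at h1
        exact h1
      · intro W _ hW
        by_cases hWU : ∀ u ∈ Finset.univ \ W, u ∈ Uᶜ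
        · have hs : Wᶜ ⊆ Uᶜ := fun u hu => hWU u (by simpa using hu)
          have hlt : (Wᶜ).card < (Uᶜ).card := by
            refine Finset.card_lt_card (Finset.ssubset_iff_subset_ne.2 ⟨hs, fun h2 => hW ?_⟩)
            exact compl_injective h2
          rw [ih _ (by omega) W rfl, zero_mul]
        · push Not at hWU
          obtain ⟨u, hu, hu2⟩ := hWU
          rw [Finset.prod_eq_zero hu (if_neg hu2), mul_zero]
      · intro h2
        exact absurd (by simp) h2
  exact fun U => key _ U rfl

end Pool.Agent.L5helper59.Per
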