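import Pool.Agent.L5helper59.Per.Build
import Pool.Agent.L5helper59.Per.Alg

/-!
# The local bound
-/

set_option autoImplicit false
set_option linter.unusedSectionVars false

namespace Pool.Agent.L5helper59.Per

open Finset Filter Topology

section linear

variable {V : Type} [DecidableEq V] [Fintype V]

theorem Ed_add (b : Finset V → V → ℂ) (t t' : Finset V → ℂ) (l : List (Finset V)) (U : Finset V) :
    Ed b (t + t') l U = Ed b t l U + Ed b t' l U := by
  induction l generalizing U with
  | nil => simp [Ed]
  | cons h l ih =>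
    rw [Ed, Ed, Ed, ih, Finset.sum_congr rfl fun u _ => by rw [ih (U.erase u), mul_add],
      Finset.sum_add_distrib, Pi.add_apply]
    ring

theorem Ed_smul (b : Finset V → V → ℂ) (c : ℂ) (t : Finset V → ℂ) (l : List (Finset V))
    (U : Finset V) : Ed b (c • t) l U = c * Ed b t l U := by
  induction l generalizing U with
  | nil => simp [Ed]
  | cons h l ih =>
    rw [Ed, Ed, ih, Finset.sum_congr rfl fun u _ => by
        rw [ih (U.erase u), show b h u * (c * Ed b t l (U.erase u)) =
          c * (b h u * Ed b t l (U.erase u)) by ring],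
      ← Finset.mul_sum, Pi.smul_apply, smul_eq_mul]
    ring

theorem F2_add (t t' : Finset V → ℂ) (x : V → ℂ) : F2 (t + t') x = F2 t x + F2 t' x := by
  simp only [F2, Ed_add, add_mul, Finset.sum_add_distrib]

theorem F2_smul (c : ℂ) (t : Finset V → ℂ) (x : V → ℂ) : F2 (c • t) x = c * F2 t x := by
  simp only [F2, Ed_smul, mul_assoc, Finset.mul_sum]

/-- the parameters -/
abbrev Par (V : Type) [DecidableEq V] [Fintype V] : Type := {j : Finset V // j ≠ ∅} × Finset V

/-- the extension by zero -/
noncomputable def ext (z : Par V → ℂ) (i h : Finset V) : ℂ := if hi : i ≠ ∅ then z (⟨i, hi⟩, h) else 0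

/-- the points of the cube -/
noncomputable def pt (S : Finset (V ⊕ V)) (s : V ⊕ V) : ℂ := if s ∈ S then 1 else 0

/-- the values -/
noncomputable def G : (Par V → ℂ) →ₗ[ℂ] (Finset (V ⊕ V) → ℂ) where
  toFun z S := ∑ j : Finset V, F1 j (fun u => pt S (Sum.inl u)) *
    F2 (ext z j) (fun u => pt S (Sum.inr u))
  map_add' z z' := by
    funext S
    rw [Pi.add_apply, ← Finset.sum_add_distrib]
    refine Finset.sum_congr rfl fun j _ => ?_
    have : ext (z + z') j = ext z j + ext z' j := by
      funext h
      unfold ext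
      rw [Pi.add_apply]
      split_ifs
      · rfl
      · ring
    rw [this, F2_add, mul_add]
  map_smul' c z := by
    funext S
    rw [Pi.smul_apply, smul_eq_mul, Finset.mul_sum]
    refine Finset.sum_congr rfl fun j _ => ?_
    have : ext (c • z) j = c • ext z j := by
      funext h
      unfold ext
      rw [Pi.smul_apply]
      split_ifs
      · rfl
      · simp
    rw [this, F2_smul, RingHom.id_apply]
    ring

theorem G_inj : Function.Injective (G (V := V)) := by
  rw [injective_iff_map_eq_zero]
  intro z hz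
  have h1 : ∀ X X' : Finset V, ∑ j : Finset V, F1 j (fun u => if u ∈ X then (1 : ℂ) else 0) *
      F2 (ext z j) (fun u => if u ∈ X' then (1 : ℂ) else 0) = 0 := by
    intro X X'
    have h2 := congrFun hz (X.disjSum X')
    have h3 : (fun u : V => pt (X.disjSum X') (Sum.inl u)) = fun u => if u ∈ X then (1 : ℂ) else 0 := by
      funext u; simp [pt]
    have h4 : (fun u : V => pt (X.disjSum X') (Sum.inr u)) = fun u => if u ∈ X' then (1 : ℂ) else 0 := by
      funext u; simp [pt]
    have h5 : G z (X.disjSum X') = ∑ j : Finset V, F1 j (fun u => pt (X.disjSum X') (Sum.inl u)) *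
      F2 (ext z j) (fun u => pt (X.disjSum X') (Sum.inr u)) := rfl
    rw [h5, h3, h4] at h2
    exact h2
  have h2 : ∀ (X' : Finset V) (j : Finset V), j ≠ ∅ →
      F2 (ext z j) (fun u => if u ∈ X' then (1 : ℂ) else 0) = 0 := by
    intro X'
    refine inj_Em (fun j => F2 (ext z j) (fun u => if u ∈ X' then (1 : ℂ) else 0)) fun W => ?_
    have h3 := cube_inj (V := V) (K := ℂ) (fun W => ∑ j : Finset V,
      F2 (ext z j) (fun u => if u ∈ X' then (1 : ℂ) else 0) *
        (Em bb j (all V) W * (W.card.factorial : ℂ))) (fun X => ?_) W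
    · have h4 : (∑ j : Finset V, F2 (ext z j) (fun u => if u ∈ X' then (1 : ℂ) else 0) *
          Em bb j (all V) W) * (W.card.factorial : ℂ) = 0 := by
        rw [Finset.sum_mul]
        refine Eq.trans ?_ h3
        exact Finset.sum_congr rfl fun j _ => by ring
      rcases mul_eq_zero.1 h4 with h5 | h5
      · exact h5
      · exact absurd h5 (Nat.cast_ne_zero.2 (Nat.factorial_ne_zero _))
    · refine Eq.trans ?_ (h1 X X')
      simp only [F1, Finset.sum_mul]
      rw [Finset.sum_comm]
      refine Finset.sum_congr rfl fun j _ => Finset.sum_congr rfl fun W _ => ?_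
      ring
  have h3 : ∀ j : Finset V, j ≠ ∅ → ∀ h, ext z j h = 0 := by
    intro j hj
    refine inj_Ed (ext z j) fun W => ?_
    have h4 := cube_inj (V := V) (K := ℂ) (fun W => Ed bb (ext z j) (all V) W *
      ((1 + W.card).factorial : ℂ)) (fun X => ?_) W
    · rcases mul_eq_zero.1 h4 with h5 | h5
      · exact h5
      · exact absurd h5 (Nat.cast_ne_zero.2 (Nat.factorial_ne_zero _))
    · refine Eq.trans ?_ (h2 X j hj)
      simp only [F2]
      refine Finset.sum_congr rfl fun W _ => ?_
      ring
  funext ⟨⟨j, hj⟩, h⟩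
  have := h3 j hj h
  rw [ext, dif_pos hj] at this
  exact this

end linear

/-- extension of an injective map -/
theorem exists_equiv {S S' : Type} [Fintype S] [Fintype S'] {m : ℕ}
    (f : S → Fin m) (hf : Function.Injective f) (hm : Fintype.card S + Fintype.card S' = m) :
    ∃ e : Fin m ≃ S ⊕ S', ∀ s, e (f s) = Sum.inl s := by
  classical
  have hc : Fintype.card (Set.range f : Set (Fin m)) = Fintype.card S :=
    Set.card_range_of_injective hf
  have h1 : Fintype.card ((Set.range f)ᶜ : Set (Fin m)) = Fintype.card S' := by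
    rw [Fintype.card_compl_set, hc, Fintype.card_fin]
    omega
  let e₁ : ((Set.range f)ᶜ : Set (Fin m)) ≃ S' := Fintype.equivOfCardEq h1
  refine ⟨(Equiv.Set.sumCompl (Set.range f)).symm.trans
    (Equiv.sumCongr (Equiv.ofInjective f hf).symm e₁), fun s => ?_⟩
  rw [Equiv.trans_apply, Equiv.Set.sumCompl_symm_apply_of_mem (Set.mem_range_self s)]
  simp

/-- the local bound -/
theorem local_bound {p m : ℕ} (hm : 2 ^ (p + 1) + 2 * p + 1 ≤ m) (n : ℕ → ℕ)
    (A : ∀ k, Matrix (Fin (n k)) (Fin (n k)) ℂ)
    (C : ∀ k, Fin m → Fin m → Matrix (Fin (n k)) (Fin (n k)) ℂ) (r : Fin m → Fin m → ℕ)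
    (hr : ∀ k i j, (C k i j).rank ≤ r i j)
    (h : ∀ X : Matrix (Fin m) (Fin m) ℂ,
      Tendsto (fun k => (A k + ∑ i, ∑ j, X i j • C k i j).det) atTop (𝓝 X.permanent))
    (rs cs : Fin p ⊕ Fin p → Fin m) (hrs : Function.Injective rs) (hcs : Function.Injective cs) :
    (2 ^ p - 1) * 2 ^ p ≤ (∑ s, r (rs s) (cs s)) ^ 2 + 1 := by
  classical
  obtain ⟨q, hq⟩ : ∃ q, m = 2 ^ (p + 1) + 2 * p + 1 + q := ⟨_, (Nat.add_sub_cancel' hm).symm⟩
  have hcard : Fintype.card (Fin p ⊕ Fin p) +
      Fintype.card ((Finset (Fin p) ⊕ Finset (Fin p)) ⊕ (Unit ⊕ Fin q)) = m := by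
    simp only [Fintype.card_sum, Fintype.card_fin, Fintype.card_finset, Fintype.card_unit]
    rw [hq, pow_succ]; ring
  obtain ⟨er, her⟩ := exists_equiv rs hrs hcard
  obtain ⟨ec, hec⟩ := exists_equiv cs hcs hcard
  let M : (Finset (Fin p) → Finset (Fin p) → ℂ) → (Fin p ⊕ Fin p → ℂ) → Matrix (Fin m) (Fin m) ℂ :=
    fun z x => Matrix.of fun i j => entry (q := q) z x (ec j) (er i)
  -- the entries which depend on x
  have hM : ∀ z x i j, M z x i j = M z 0 i j + ∑ s, if rs s = i ∧ cs s = j then x s else 0 := by
    intro z x i j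
    have key : ∀ a b : Idx (Fin p) q, entry z x b a = entry z 0 b a +
        ∑ s, if a = Sum.inl s ∧ b = Sum.inl s then x s else 0 := by
      intro a b
      rcases b with (u | u) | b
      · rw [Finset.sum_eq_single (Sum.inl u)]
        · rcases a with (u' | u') | ((h' | h') | (h' | i'))
          · by_cases huu : u = u'
            · subst huu; simp [entry]
            · simp [entry, huu, Ne.symm huu]
          all_goals simp [entry]
        · intro s _ hs
          rw [if_neg]
          rintro ⟨-, h2⟩
          exact hs (Sum.inl_injective h2).symm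
        · intro h; exact absurd (Finset.mem_univ _) h
      · rw [Finset.sum_eq_single (Sum.inr u)]
        · rcases a with (u' | u') | ((h' | h') | (h' | i'))
          · simp [entry]
          · by_cases huu : u = u'
            · subst huu; simp [entry]
            · simp [entry, huu, Ne.symm huu]
          all_goals simp [entry]
        · intro s _ hs
          rw [if_neg]
          rintro ⟨-, h2⟩
          exact hs (Sum.inl_injective h2).symm
        · intro h; exact absurd (Finset.mem_univ _) h
      · rw [Finset.sum_eq_zero fun s _ => by rw [if_neg]; rintro ⟨-, h2⟩; simp at h2, add_zero]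
        rcases a with (u' | u') | ((h' | h') | (h' | i')) <;>
        rcases b with ((h'' | h'') | (h'' | i'')) <;> rfl
    show entry z x (ec j) (er i) = entry z 0 (ec j) (er i) + _
    rw [key]
    congr 1
    refine Finset.sum_congr rfl fun s _ => ?_
    have e1 : er i = Sum.inl s ↔ rs s = i := by
      rw [← her s]
      exact ⟨fun h => (er.injective h).symm, fun h => by rw [h]⟩
    have e2 : ec j = Sum.inl s ↔ cs s = j := by
      rw [← hec s]
      exact ⟨fun h => (ec.injective h).symm, fun h => by rw [h]⟩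
    simp only [e1, e2]
  -- the matrices
  let B : (Finset (Fin p) → Finset (Fin p) → ℂ) → ∀ k, Matrix (Fin (n k)) (Fin (n k)) ℂ :=
    fun z k => A k + ∑ i, ∑ j, M z 0 i j • C k i j
  have hB : ∀ z x k, A k + ∑ i, ∑ j, M z x i j • C k i j =
      B z k + ∑ s, x s • C k (rs s) (cs s) := by
    intro z x k
    have h1 : ∑ i, ∑ j, M z x i j • C k i j = ∑ i, ∑ j, M z 0 i j • C k i j +
        ∑ i, ∑ j, ∑ s, (if rs s = i ∧ cs s = j then x s else 0) • C k i j := by
      rw [← Finset.sum_add_distrib]
      refine Finset.sum_congr rfl fun i _ => ?_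
      rw [← Finset.sum_add_distrib]
      refine Finset.sum_congr rfl fun j _ => ?_
      rw [hM, add_smul, Finset.sum_smul]
    have h2 : ∑ i, ∑ j, ∑ s, (if rs s = i ∧ cs s = j then x s else 0) • C k i j =
        ∑ s, x s • C k (rs s) (cs s) := by
      rw [Finset.sum_congr rfl fun i _ => Finset.sum_comm, Finset.sum_comm]
      refine Finset.sum_congr rfl fun s _ => ?_
      rw [Finset.sum_eq_single (rs s), Finset.sum_eq_single (cs s)]
      · rw [if_pos ⟨rfl, rfl⟩]
      · intro j _ hj
        rw [if_neg fun h => hj h.2.symm, zero_smul]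
      · intro h; exact absurd (Finset.mem_univ _) h
      · intro i _ hi
        refine Finset.sum_eq_zero fun j _ => ?_
        rw [if_neg fun h => hi h.1.symm, zero_smul]
      · intro h; exact absurd (Finset.mem_univ _) h
    rw [h1, h2, ← add_assoc]
  -- convergence
  have hlim : ∀ (z : Par (Fin p) → ℂ) (S : Finset (Fin p ⊕ Fin p)),
      Tendsto (fun k => (B (ext z) k + ∑ s, pt S s • C k (rs s) (cs s)).det) atTop (𝓝 (G z S)) := by
    intro z S
    have h1 := h (M (ext z) (pt S))
    simp only [hB] at h1
    have h2 : (M (ext z) (pt S)).permanent = G z S := perm_val (q := q) (ext z) (pt S) er ec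
    rwa [h2] at h1
  -- the count
  let I : Type := Σ s : Fin p ⊕ Fin p, Fin (r (rs s) (cs s))
  have hdim := dim_bound (T := Par (Fin p)) (Y := Finset (Fin p ⊕ Fin p)) (κ := Option (I × I))
    (Y₀ := Finset (Fin p ⊕ Fin p)) (G (V := Fin p)) G_inj
    (fun S₀ S => MvPolynomial.X none * (1 + Matrix.diagonal (fun s : I =>
      MvPolynomial.C (pt S s.1 - pt S₀ s.1)) *
        Matrix.of fun a b => MvPolynomial.X (some (a, b))).det) ?_
  · have c1 : Fintype.card (Par (Fin p)) = (2 ^ p - 1) * 2 ^ p := by
      rw [Fintype.card_prod, Fintype.card_finset, Fintype.card_fin, Fintype.card_subtype_compl,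
        Fintype.card_finset, Fintype.card_fin]
      simp
    have c2 : Fintype.card (Option (I × I)) = (∑ s, r (rs s) (cs s)) ^ 2 + 1 := by
      rw [Fintype.card_option, Fintype.card_prod, Fintype.card_sigma]
      simp only [Fintype.card_fin]
      ring
    rwa [c1, c2] at hdim
  · intro z hz
    obtain ⟨S₀, hS₀⟩ : ∃ S₀, G z S₀ ≠ 0 := by
      by_contra hcon
      push Not at hcon
      exact hz (G_inj (by rw [map_zero]; exact funext hcon))
    have hW : ∀ k, ∃ W : Matrix I I ℂ,
        (B (ext z) k + ∑ s, pt S₀ s • C k (rs s) (cs s)).det ≠ 0 → ∀ x : Fin p ⊕ Fin p → ℂ,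
        (B (ext z) k + ∑ s, x s • C k (rs s) (cs s)).det =
        (B (ext z) k + ∑ s, pt S₀ s • C k (rs s) (cs s)).det *
        (1 + Matrix.diagonal (fun s : I => x s.1 - pt S₀ s.1) * W).det := by
      intro k
      by_cases h0 : (B (ext z) k + ∑ s, pt S₀ s • C k (rs s) (cs s)).det ≠ 0
      · obtain ⟨W, hW⟩ := compress (fun s => r (rs s) (cs s)) (B (ext z) k)
          (fun s => C k (rs s) (cs s)) (fun s => hr k _ _) (pt S₀) h0
        exact ⟨W, fun _ => hW⟩
      · exact ⟨0, fun h1 => absurd h1 h0⟩
    choose W hW using hW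
    refine ⟨S₀, fun k o => match o with
      | none => (B (ext z) k + ∑ s, pt S₀ s • C k (rs s) (cs s)).det
      | some (a, b) => W k a b, fun S => ?_⟩
    refine (hlim z S).congr' ?_
    filter_upwards [(hlim z S₀).eventually_ne hS₀] with k hk
    rw [hW k hk (pt S), map_mul, MvPolynomial.eval_X, RingHom.map_det]
    congr 2
    ext a b
    rw [RingHom.mapMatrix_apply, Matrix.map_apply, Matrix.add_apply, Matrix.add_apply,
      Matrix.diagonal_mul, Matrix.diagonal_mul, map_add, map_mul, MvPolynomial.eval_C,
      Matrix.of_apply, MvPolynomial.eval_X]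
    congr 1
    rw [Matrix.one_apply, Matrix.one_apply]
    split_ifs <;> simp

end Pool.Agent.L5helper59.Per
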