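import Pool.Agent.L5helper59.Per.Global

/-!
# The total rank of the coefficient matrices in determinantal representations of the permanent

Let the permanent of an `m × m` matrix of variables be the determinant (or a pointwise limit of
determinants) of matrices `A + ∑ x i j • C i j` of any size. Then the ranks of the matrices `C i j`
add up to at least `m ^ 3 / (64 * log₂ m)`. For the determinant `m ^ 2` is enough.

Proof. Substituting constants for the variables outside a set of `2 p` cells, no two in the same
row or column, the permanent becomes a polynomial in `2 p` variables, and a suitable linear family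
of substitutions with `(2 ^ p - 1) * 2 ^ p` parameters gives different polynomials for different
parameters. On the other hand the determinant, as a polynomial in these `2 p` variables, is
described by `R ^ 2 + 1` numbers, where `R` is the sum of the ranks of the `2 p` coefficient
matrices. A comparison of transcendence degrees gives `R ≥ 2 ^ p - 1`. Finally the `m ^ 2` cells
contain about `m ^ 2 / (2 p)` disjoint sets of this kind.
-/

set_option autoImplicit false

open Filter Topology

namespace L5helper59.Per.NearCubicRank

theorem result (m : ℕ) (n : ℕ → ℕ) (A : ∀ k, Matrix (Fin (n k)) (Fin (n k)) ℂ)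
    (C : ∀ k, Fin m → Fin m → Matrix (Fin (n k)) (Fin (n k)) ℂ) (r : Fin m → Fin m → ℕ)
    (hr : ∀ k i j, (C k i j).rank ≤ r i j)
    (h : ∀ X : Matrix (Fin m) (Fin m) ℂ,
      Tendsto (fun k => (A k + ∑ i, ∑ j, X i j • C k i j).det) atTop (𝓝 X.permanent)) :
    (∀ p : ℕ, 2 ^ (p + 1) + 2 * p + 1 ≤ m → ∀ a b : Fin p ⊕ Fin p → Fin m,
      Function.Injective a → Function.Injective b → 2 ^ p - 1 ≤ ∑ s, r (a s) (b s)) ∧
    (8 ≤ m → m ^ 3 ≤ 64 * Nat.log 2 m * ∑ i, ∑ j, r i j) := by
  have h1 : ∀ p : ℕ, 2 ^ (p + 1) + 2 * p + 1 ≤ m → ∀ a b : Fin p ⊕ Fin p → Fin m,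
      Function.Injective a → Function.Injective b → 2 ^ p - 1 ≤ ∑ s, r (a s) (b s) :=
    fun p hp a b ha hb => Pool.Agent.L5helper59.Per.sq_arith p _
      (Pool.Agent.L5helper59.Per.local_bound hp n A C r hr h a b ha hb)
  refine ⟨h1, fun hm => ?_⟩
  exact Pool.Agent.L5helper59.Per.cubic_arith hm
    (Pool.Agent.L5helper59.Per.block_sum (by omega) r _
      (h1 _ (Pool.Agent.L5helper59.Per.log_arith hm).2.1))

end L5helper59.Per.NearCubicRank
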