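import Mathlib

/-!
# Permanents column by column

`pl L T` is the permanent of the matrix with the columns in the list `L` (functions of the rows)
and the set of rows `T`.
-/

set_option autoImplicit false

namespace Pool.Agent.L5helper59.Per

open Finset

variable {ρ : Type*} [DecidableEq ρ] {R : Type*} [CommRing R]

/-- exchange of the order of an element and a set -/
theorem sum_insert_powerset (U : Finset ρ) (F : ρ → Finset ρ → R) :
    ∑ u ∈ U, ∑ S ∈ (U.erase u).powerset, F u (insert u S) =
      ∑ S ∈ U.powerset, ∑ u ∈ S, F u S := by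
  rw [Finset.sum_sigma', Finset.sum_sigma']
  refine Finset.sum_bij' (fun x _ => ⟨insert x.1 x.2, x.1⟩) (fun x _ => ⟨x.2, x.1.erase x.2⟩)
    ?_ ?_ ?_ ?_ ?_
  · rintro ⟨u, S⟩ h
    simp only [Finset.mem_sigma, Finset.mem_powerset] at h ⊢
    refine ⟨?_, Finset.mem_insert_self _ _⟩
    rw [Finset.insert_subset_iff]
    exact ⟨h.1, h.2.trans (Finset.erase_subset _ _)⟩
  · rintro ⟨S, u⟩ h
    simp only [Finset.mem_sigma, Finset.mem_powerset] at h ⊢
    exact ⟨h.1 h.2, Finset.erase_subset_erase _ h.1⟩
  · rintro ⟨u, S⟩ h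
    simp only [Finset.mem_sigma, Finset.mem_powerset] at h
    have : u ∉ S := fun hu => (Finset.mem_erase.1 (h.2 hu)).1 rfl
    simp [this]
  · rintro ⟨S, u⟩ h
    simp only [Finset.mem_sigma, Finset.mem_powerset] at h
    simp [Finset.insert_erase h.2]
  · rintro ⟨u, S⟩ h
    rfl

/-- the permanent of the matrix with the columns in `L` and the set of rows `T` -/
def pl : List (ρ → R) → Finset ρ → R
  | [], T => if T = ∅ then 1 else 0
  | c :: L, T => ∑ i ∈ T, c i * pl L (T.erase i)

theorem pl_nil (T : Finset ρ) : pl ([] : List (ρ → R)) T = if T = ∅ then 1 else 0 := rfl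

theorem pl_cons (c : ρ → R) (L : List (ρ → R)) (T : Finset ρ) :
    pl (c :: L) T = ∑ i ∈ T, c i * pl L (T.erase i) := rfl

/-- the expansion along the first columns -/
theorem pl_append (L₁ L₂ : List (ρ → R)) (T : Finset ρ) :
    pl (L₁ ++ L₂) T = ∑ S ∈ T.powerset, pl L₁ S * pl L₂ (T \ S) := by
  induction L₁ generalizing T with
  | nil =>
    rw [List.nil_append, Finset.sum_eq_single ∅]
    · rw [pl_nil, if_pos rfl, one_mul, sdiff_empty]
    · intro S _ hS
      rw [pl_nil, if_neg hS, zero_mul]
    · intro h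
      exact absurd (Finset.empty_mem_powerset T) h
  | cons c L₁ ih =>
    rw [List.cons_append, pl_cons]
    have h1 : ∀ i ∈ T, c i * pl (L₁ ++ L₂) (T.erase i) =
        ∑ S ∈ (T.erase i).powerset, c i * pl L₁ ((insert i S).erase i) *
          pl L₂ (T \ insert i S) := by
      intro i _
      rw [ih, Finset.mul_sum]
      refine Finset.sum_congr rfl fun S hS => ?_
      have hi : i ∉ S := fun h => (Finset.mem_erase.1 (Finset.mem_powerset.1 hS h)).1 rfl
      rw [Finset.erase_insert hi, Finset.sdiff_insert, ← Finset.erase_sdiff_comm, mul_assoc]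
    rw [Finset.sum_congr rfl h1,
      sum_insert_powerset T (fun i S => c i * pl L₁ (S.erase i) * pl L₂ (T \ S))]
    refine Finset.sum_congr rfl fun S _ => ?_
    rw [pl_cons, Finset.sum_mul]

theorem pl_card (L : List (ρ → R)) (T : Finset ρ) (h : T.card ≠ L.length) : pl L T = 0 := by
  induction L generalizing T with
  | nil =>
    rw [pl_nil, if_neg]
    rintro rfl
    exact h rfl
  | cons c L ih =>
    rw [pl_cons]
    refine Finset.sum_eq_zero fun i hi => ?_
    rw [ih, mul_zero]
    rw [Finset.card_erase_of_mem hi]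
    have := Finset.card_pos.2 ⟨i, hi⟩
    rw [List.length_cons] at h
    omega

/-- a zero row -/
theorem pl_zero_row (L : List (ρ → R)) (T : Finset ρ) (i : ρ) (hi : i ∈ T)
    (h : ∀ c ∈ L, c i = 0) : pl L T = 0 := by
  induction L generalizing T with
  | nil =>
    rw [pl_nil, if_neg]
    rintro rfl
    simp at hi
  | cons c L ih =>
    rw [pl_cons]
    refine Finset.sum_eq_zero fun k hk => ?_
    by_cases hki : k = i
    · rw [hki, h c (List.mem_cons_self), zero_mul]
    · rw [ih (T.erase k) (Finset.mem_erase.2 ⟨Ne.symm hki, hi⟩)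
        (fun c' hc' => h c' (List.mem_cons_of_mem _ hc')), mul_zero]

/-- block triangular matrices -/
theorem pl_block (L₁ L₂ : List (ρ → R)) (A B : Finset ρ) (hAB : Disjoint A B)
    (h₁ : A.card = L₁.length) (h : ∀ c ∈ L₁, ∀ i ∈ B, c i = 0) :
    pl (L₁ ++ L₂) (A ∪ B) = pl L₁ A * pl L₂ B := by
  rw [pl_append, Finset.sum_eq_single A]
  · rw [Finset.union_sdiff_cancel_left hAB]
  · intro S hS hSA
    rw [Finset.mem_powerset] at hS
    by_cases hSB : ∃ i ∈ S, i ∈ B
    · obtain ⟨i, hi, hiB⟩ := hSB
      rw [pl_zero_row L₁ S i hi (fun c hc => h c hc i hiB), zero_mul]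
    · push Not at hSB
      have hSA' : S ⊆ A := fun i hi => (Finset.mem_union.1 (hS hi)).resolve_right (hSB i hi)
      rw [pl_card, zero_mul]
      intro hc
      exact hSA (Finset.eq_of_subset_of_card_le hSA' (by omega))
  · intro hA
    exact absurd (Finset.mem_powerset.2 Finset.subset_union_left) hA

/-- block triangular matrices, the other case -/
theorem pl_block' (L₁ L₂ : List (ρ → R)) (A B : Finset ρ) (hAB : Disjoint A B)
    (h₂ : B.card = L₂.length) (h : ∀ c ∈ L₂, ∀ i ∈ A, c i = 0) :
    pl (L₁ ++ L₂) (A ∪ B) = pl L₁ A * pl L₂ B := by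
  rw [pl_append, Finset.sum_eq_single A]
  · rw [Finset.union_sdiff_cancel_left hAB]
  · intro S hS hSA
    rw [Finset.mem_powerset] at hS
    by_cases hSB : ∃ i ∈ (A ∪ B) \ S, i ∈ A
    · obtain ⟨i, hi, hiA⟩ := hSB
      rw [pl_zero_row L₂ _ i hi (fun c hc => h c hc i hiA), mul_zero]
    · push Not at hSB
      have hSB' : (A ∪ B) \ S ⊆ B := fun i hi =>
        (Finset.mem_union.1 (Finset.mem_sdiff.1 hi).1).resolve_left (hSB i hi)
      rw [pl_card L₂, mul_zero]
      intro hc
      have h3 : (A ∪ B) \ S = B := Finset.eq_of_subset_of_card_le hSB' (by omega)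
      apply hSA
      have h4 : S = (A ∪ B) \ ((A ∪ B) \ S) := by
        rw [Finset.sdiff_sdiff_eq_self hS]
      rw [h4, h3, Finset.union_sdiff_cancel_right hAB]
  · intro hA
    exact absurd (Finset.mem_powerset.2 Finset.subset_union_left) hA

/-- block matrices where one row of the first block is left over -/
theorem pl_block_one (L₁ L₂ : List (ρ → R)) (A B : Finset ρ) (hAB : Disjoint A B)
    (h₁ : A.card = L₁.length + 1) (h : ∀ c ∈ L₁, ∀ i ∈ B, c i = 0) :
    pl (L₁ ++ L₂) (A ∪ B) = ∑ i ∈ A, pl L₁ (A.erase i) * pl L₂ (insert i B) := by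
  rw [pl_append]
  have hinj : Set.InjOn (fun i => A.erase i) A := by
    intro i hi j hj hij
    by_contra hne
    have : j ∈ A.erase i := Finset.mem_erase.2 ⟨Ne.symm hne, hj⟩
    have h2 : A.erase i = A.erase j := hij
    rw [h2] at this
    exact (Finset.mem_erase.1 this).1 rfl
  have hsub : A.image (fun i => A.erase i) ⊆ (A ∪ B).powerset := by
    intro S hS
    obtain ⟨i, _, rfl⟩ := Finset.mem_image.1 hS
    exact Finset.mem_powerset.2 ((Finset.erase_subset _ _).trans Finset.subset_union_left)
  rw [← Finset.sum_subset hsub, Finset.sum_image hinj]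
  · refine Finset.sum_congr rfl fun i hi => ?_
    have e : (A ∪ B) \ A.erase i = insert i B := by
      ext j
      simp only [Finset.mem_sdiff, Finset.mem_union, Finset.mem_erase, Finset.mem_insert]
      constructor
      · rintro ⟨h1 | h1, h2⟩
        · left
          by_contra hji
          exact h2 ⟨hji, h1⟩
        · exact Or.inr h1
      · rintro (rfl | h1)
        · exact ⟨Or.inl hi, fun h => h.1 rfl⟩
        · exact ⟨Or.inr h1, fun h => Finset.disjoint_left.1 hAB h.2 h1⟩
    rw [e]
  · intro S hS hSA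
    rw [Finset.mem_powerset] at hS
    by_cases hSB : ∃ i ∈ S, i ∈ B
    · obtain ⟨i, hi, hiB⟩ := hSB
      rw [pl_zero_row L₁ S i hi (fun c hc => h c hc i hiB), zero_mul]
    · push Not at hSB
      have hSA' : S ⊆ A := fun i hi => (Finset.mem_union.1 (hS hi)).resolve_right (hSB i hi)
      rw [pl_card, zero_mul]
      intro hc
      apply hSA
      have h2 : (A \ S).card = 1 := by
        rw [Finset.card_sdiff_of_subset hSA']
        omega
      obtain ⟨i, hi⟩ := Finset.card_eq_one.1 h2
      refine Finset.mem_image.2 ⟨i, ?_, ?_⟩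
      · have : i ∈ A \ S := by rw [hi]; exact Finset.mem_singleton_self i
        exact (Finset.mem_sdiff.1 this).1
      · show A.erase i = S
        rw [← Finset.sdiff_singleton_eq_erase, ← hi, Finset.sdiff_sdiff_eq_self hSA']

/-- expansion of a permanent along the first column. -/
theorem permanent_succ_column_zero {n : ℕ} (A : Matrix (Fin (n + 1)) (Fin (n + 1)) R) :
    A.permanent = ∑ i : Fin (n + 1), A i 0 * (A.submatrix i.succAbove Fin.succ).permanent := by
  unfold Matrix.permanent
  rw [Finset.univ_perm_fin_succ, ← Finset.univ_product_univ]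
  simp only [Finset.sum_map, Equiv.toEmbedding_apply, Finset.sum_product, Matrix.submatrix,
    Matrix.of_apply]
  refine Finset.sum_congr rfl fun i _ => Fin.cases ?_ (fun i => ?_) i
  · simp only [Fin.prod_univ_succ, Finset.mul_sum,
      Equiv.Perm.decomposeFin_symm_apply_zero, Equiv.swap_self, Equiv.refl_apply,
      Equiv.Perm.decomposeFin_symm_apply_succ, Fin.succAbove_zero]
  · rw [Finset.mul_sum]
    have hbij := (Group.mulLeft_bijective (i.cycleRange)).sum_comp
      (fun τ : Equiv.Perm (Fin n) => A i.succ 0 * ∏ j, A (i.succ.succAbove (τ j)) j.succ)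
    rw [← hbij]
    refine Finset.sum_congr rfl fun σ _ => ?_
    simp only [Fin.prod_univ_succ, Equiv.Perm.coe_mul, Function.comp_apply,
      Fin.succAbove_cycleRange, Equiv.Perm.decomposeFin_symm_apply_zero,
      Equiv.Perm.decomposeFin_symm_apply_succ]

/-- permanents and `pl` -/
theorem permanent_eq_pl {n : ℕ} (c : Fin n → ρ → R) (r : Fin n → ρ)
    (hr : Function.Injective r) :
    (Matrix.of fun i j => c j (r i)).permanent = pl (List.ofFn c) (Finset.univ.image r) := by
  induction n with
  | zero =>
    rw [Matrix.permanent_isEmpty, List.ofFn_zero, pl_nil, if_pos]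
    simp
  | succ n ih =>
    rw [permanent_succ_column_zero, List.ofFn_succ, pl_cons, Finset.sum_image (fun _ _ _ _ h => hr h)]
    refine Finset.sum_congr rfl fun i _ => ?_
    have h1 := ih (fun j => c j.succ) (r ∘ i.succAbove) (hr.comp Fin.succAbove_right_injective)
    have e : (Matrix.of fun i j => c j (r i)).submatrix i.succAbove Fin.succ =
        Matrix.of fun i' j => c j.succ ((r ∘ i.succAbove) i') := rfl
    rw [e, h1]
    congr 2
    ext x
    simp only [Finset.mem_image, Finset.mem_univ, true_and, Function.comp_apply,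
      Finset.mem_erase]
    constructor
    · rintro ⟨a, rfl⟩
      exact ⟨fun h => Fin.succAbove_ne i a (hr h), i.succAbove a, rfl⟩
    · rintro ⟨h2, a, rfl⟩
      obtain ⟨a', rfl⟩ := Fin.exists_succAbove_eq (x := a) (y := i) (fun h => h2 (by rw [h]))
      exact ⟨a', rfl⟩

end Pool.Agent.L5helper59.Per
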