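import Pool.Agent.L5helper59.Per.PL

/-!
# Products in the algebra with square zero generators

`Ez b l U` is the coefficient at `U` of the product of the `1 + ∑ u, b h u • η u`, `h ∈ l`, in the
algebra with commuting generators `η u` with square zero.
-/

set_option autoImplicit false

namespace Pool.Agent.L5helper59.Per

open Finset

variable {V η : Type*} [DecidableEq V] [DecidableEq η] {R : Type*} [CommRing R]

/-- the coefficients of the product -/
def Ez (b : η → V → R) : List η → Finset V → R
  | [], U => if U = ∅ then 1 else 0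
  | h :: l, U => Ez b l U + ∑ u ∈ U, b h u * Ez b l (U.erase u)

/-- the derivative with the weights `t` -/
def Ed (b : η → V → R) (t : η → R) : List η → Finset V → R
  | [], _ => 0
  | h :: l, U => Ed b t l U + ∑ u ∈ U, b h u * Ed b t l (U.erase u) + t h * Ez b l U

/-- the factor `i` is replaced by its linear part -/
def Em (b : η → V → R) (i : η) : List η → Finset V → R
  | [], _ => 0
  | h :: l, U => if h = i then ∑ u ∈ U, b h u * Ez b l (U.erase u) else
      Em b i l U + ∑ u ∈ U, b h u * Em b i l (U.erase u)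

variable (b : η → V → R)

theorem Ez_cons (h : η) (l : List η) (U : Finset V) :
    Ez b (h :: l) U = Ez b l U + ∑ u ∈ U, b h u * Ez b l (U.erase u) := rfl

theorem Ez_empty (l : List η) : Ez b l ∅ = 1 := by
  induction l with
  | nil => rw [Ez, if_pos rfl]
  | cons h l ih => rw [Ez_cons, ih]; simp

theorem Ez_swap (h h' : η) (l : List η) (U : Finset V) :
    Ez b (h :: h' :: l) U = Ez b (h' :: h :: l) U := by
  have key : ∀ h h' : η, Ez b (h :: h' :: l) U = Ez b l U + ∑ u ∈ U, b h' u * Ez b l (U.erase u) +
      (∑ u ∈ U, b h u * Ez b l (U.erase u) +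
        ∑ u ∈ U, ∑ u' ∈ U.erase u, b h u * (b h' u' * Ez b l ((U.erase u).erase u'))) := by
    intro h h'
    rw [Ez_cons, Ez_cons, ← Finset.sum_add_distrib]
    congr 1
    refine Finset.sum_congr rfl fun u _ => ?_
    rw [Ez_cons, mul_add, Finset.mul_sum]
  rw [key h h', key h' h]
  have e : ∑ u ∈ U, ∑ u' ∈ U.erase u, b h u * (b h' u' * Ez b l ((U.erase u).erase u')) =
      ∑ u ∈ U, ∑ u' ∈ U.erase u, b h' u * (b h u' * Ez b l ((U.erase u).erase u')) := by
    rw [Finset.sum_comm' (t' := U) (s' := fun u' => U.erase u')]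
    · refine Finset.sum_congr rfl fun u _ => Finset.sum_congr rfl fun u' _ => ?_
      rw [Finset.erase_right_comm]; ring
    · intro x y
      simp only [Finset.mem_erase]
      constructor
      · rintro ⟨h1, h2, h3⟩; exact ⟨⟨Ne.symm h2, h1⟩, h3⟩
      · rintro ⟨⟨h1, h2⟩, h3⟩; exact ⟨h2, Ne.symm h1, h3⟩
  rw [e]; ring

theorem Ez_erase {l : List η} {j : η} (hj : j ∈ l) (U : Finset V) :
    Ez b l U = Ez b (j :: l.erase j) U := by
  induction l generalizing U with
  | nil => simp at hj
  | cons h l ih =>
    by_cases hjh : h = j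
    · rw [← hjh, List.erase_cons_head]
    · have hj' : j ∈ l := by
        rcases List.mem_cons.1 hj with h1 | h1
        · exact absurd h1.symm hjh
        · exact h1
      rw [List.erase_cons_tail (by simpa using hjh), Ez_swap, Ez_cons, ih hj',
        Finset.sum_congr rfl fun u _ => by rw [ih hj' (U.erase u)], ← Ez_cons]

theorem Ed_eq (t : η → R) {l : List η} (hl : l.Nodup) (U : Finset V) :
    Ed b t l U = ∑ j ∈ l.toFinset, t j * Ez b (l.erase j) U := by
  induction l generalizing U with
  | nil => rw [Ed]; simp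
  | cons h l ih =>
    obtain ⟨hh, hl⟩ := List.nodup_cons.1 hl
    rw [Ed, ih hl, List.toFinset_cons, Finset.sum_insert (by simpa using hh),
      List.erase_cons_head]
    have e : ∀ u ∈ U, b h u * Ed b t l (U.erase u) =
        ∑ j ∈ l.toFinset, t j * (b h u * Ez b (l.erase j) (U.erase u)) := by
      intro u _
      rw [ih hl, Finset.mul_sum]
      exact Finset.sum_congr rfl fun j _ => by ring
    rw [Finset.sum_congr rfl e, Finset.sum_comm, ← Finset.sum_add_distrib, add_comm]
    congr 1
    refine Finset.sum_congr rfl fun j hj => ?_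
    have hjh : h ≠ j := by
      rintro rfl
      exact hh (by simpa using hj)
    rw [List.erase_cons_tail (by simpa using hjh), Ez_cons, mul_add, Finset.mul_sum]

theorem Em_eq {l : List η} (hl : l.Nodup) {i : η} (hi : i ∈ l) (U : Finset V) :
    Em b i l U = Ez b l U - Ez b (l.erase i) U := by
  induction l generalizing U with
  | nil => simp at hi
  | cons h l ih =>
    obtain ⟨hh, hl⟩ := List.nodup_cons.1 hl
    rw [Em]
    split_ifs with hhi
    · rw [← hhi, List.erase_cons_head, Ez_cons]; ring
    · have hi' : i ∈ l := by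
        rcases List.mem_cons.1 hi with h1 | h1
        · exact absurd h1.symm hhi
        · exact h1
      rw [List.erase_cons_tail (by simpa using hhi), Ez_cons, Ez_cons, ih hl hi',
        Finset.sum_congr rfl fun u _ => by rw [ih hl hi' (U.erase u), mul_sub],
        Finset.sum_sub_distrib]
      ring

/-- the inversion formula -/
theorem inversion (t : η → R) {l : List η} (hb : ∀ j u, b j u * b j u = b j u) :
    ∀ (n : ℕ) (U S : Finset V), U.card = n →
    ∑ j ∈ l.toFinset, (t j * ∏ u ∈ S, b j u) * Ez b (l.erase j) U =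
      ∑ Q ∈ U.powerset, (-1) ^ Q.card * (Q.card.factorial : R) *
        (∑ j ∈ l.toFinset, t j * ∏ u ∈ S ∪ Q, b j u) * Ez b l (U \ Q) := by
  intro n
  induction n with
  | zero =>
    intro U S hU
    rw [Finset.card_eq_zero] at hU
    subst hU
    simp [Ez_empty]
  | succ n ih =>
    intro U S hU
    have h1 : ∑ j ∈ l.toFinset, (t j * ∏ u ∈ S, b j u) * Ez b l U =
        ∑ j ∈ l.toFinset, (t j * ∏ u ∈ S, b j u) * Ez b (l.erase j) U +
        ∑ u ∈ U, ∑ j ∈ l.toFinset, (t j * ∏ u ∈ insert u S, b j u) *
          Ez b (l.erase j) (U.erase u) := by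
      rw [Finset.sum_comm, ← Finset.sum_add_distrib]
      refine Finset.sum_congr rfl fun j hj => ?_
      rw [Ez_erase b (by simpa using hj), Ez_cons, mul_add, Finset.mul_sum]
      congr 1
      refine Finset.sum_congr rfl fun u _ => ?_
      have e : ∏ u ∈ insert u S, b j u = b j u * ∏ u ∈ S, b j u := by
        by_cases hu : u ∈ S
        · rw [Finset.insert_eq_of_mem hu, ← Finset.mul_prod_erase S _ hu, ← mul_assoc, hb]
        · rw [Finset.prod_insert hu]
      rw [e]; ring
    have h2 : ∀ u ∈ U, ∑ j ∈ l.toFinset, (t j * ∏ u ∈ insert u S, b j u) *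
          Ez b (l.erase j) (U.erase u) =
        ∑ Q ∈ (U.erase u).powerset, (-1) ^ ((insert u Q).erase u).card *
          (((insert u Q).erase u).card.factorial : R) *
          (∑ j ∈ l.toFinset, t j * ∏ u ∈ S ∪ insert u Q, b j u) * Ez b l (U \ insert u Q) := by
      intro u hu
      rw [ih (U.erase u) (insert u S) (by rw [Finset.card_erase_of_mem hu]; omega)]
      refine Finset.sum_congr rfl fun Q hQ => ?_
      have huQ : u ∉ Q := fun h => (Finset.mem_erase.1 (Finset.mem_powerset.1 hQ h)).1 rfl
      rw [Finset.erase_insert huQ, Finset.insert_union, ← Finset.union_insert,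
        Finset.sdiff_insert, ← Finset.erase_sdiff_comm]
    rw [Finset.sum_congr rfl h2, sum_insert_powerset U (fun u Q => (-1) ^ (Q.erase u).card *
          ((Q.erase u).card.factorial : R) *
          (∑ j ∈ l.toFinset, t j * ∏ u ∈ S ∪ Q, b j u) * Ez b l (U \ Q))] at h1
    have h3 : ∀ Q ∈ U.powerset, ∑ u ∈ Q, (-1) ^ (Q.erase u).card *
          ((Q.erase u).card.factorial : R) *
          (∑ j ∈ l.toFinset, t j * ∏ u ∈ S ∪ Q, b j u) * Ez b l (U \ Q) =
        (if Q = ∅ then (∑ j ∈ l.toFinset, t j * ∏ u ∈ S, b j u) * Ez b l U else 0) -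
        (-1) ^ Q.card * (Q.card.factorial : R) *
        (∑ j ∈ l.toFinset, t j * ∏ u ∈ S ∪ Q, b j u) * Ez b l (U \ Q) := by
      intro Q _
      by_cases hQ : Q = ∅
      · subst hQ
        simp
      · rw [if_neg hQ]
        have hc := Finset.card_pos.2 (Finset.nonempty_iff_ne_empty.2 hQ)
        obtain ⟨c, hc'⟩ : ∃ c, Q.card = c + 1 := ⟨Q.card - 1, by omega⟩
        have h4 : ∀ u ∈ Q, (-1) ^ (Q.erase u).card *
          ((Q.erase u).card.factorial : R) *
          (∑ j ∈ l.toFinset, t j * ∏ u ∈ S ∪ Q, b j u) * Ez b l (U \ Q) =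
          (-1) ^ c * (c.factorial : R) *
          (∑ j ∈ l.toFinset, t j * ∏ u ∈ S ∪ Q, b j u) * Ez b l (U \ Q) := by
          intro u hu
          rw [Finset.card_erase_of_mem hu, hc', Nat.add_sub_cancel]
        rw [Finset.sum_congr rfl h4, Finset.sum_const, hc', Nat.factorial_succ, nsmul_eq_mul]
        push_cast
        ring
    rw [Finset.sum_congr rfl h3, Finset.sum_sub_distrib, Finset.sum_ite_eq' U.powerset ∅,
      if_pos (Finset.empty_mem_powerset U)] at h1
    rw [← Finset.sum_mul] at h1
    linear_combination -h1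

end Pool.Agent.L5helper59.Per
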